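import Pool.Agent.H841.MF.Cls
import Pool.Agent.H841.MS.One

/-!
# One exceptional class on the square of a fourfold of Mumford type
-/

set_option linter.unusedSectionVars false

namespace Pool.Agent.H841.MF

open Finset Matrix Module Pool.Agent.H841.MS Pool.Agent.W437.HC Pool.Agent.W437.HD
open Pool.Agent.V1168.GH Pool.Agent.TH504.CB Pool.Agent.Y90 Pool.Agent.R915
open Pool.Agent.W548.Odd hiding cv
open Pool.Agent.H204R3.CM (IsHodge)
open Pool.Agent.N178.HW (prodAV)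
open Pool.Agent.N830.HC (hodgeSys)
open Equiv (Perm)

noncomputable section

/-- The polarization. -/
def th (g : ℕ) : (Fin g ⊕ Fin g → ℚ) [⋀^Fin 2]→ₗ[ℚ] ℚ :=
  (2⁻¹ : ℚ) • MultilinearMap.alternatization
    (evalM fun I : Fin 2 → Fin g ⊕ Fin g => Om g ℚ (I 0) (I 1))

variable {g : ℕ}

theorem evalF_perm (X : Fin 2 → Fin g ⊕ Fin g → ℂ) (σ : Perm (Fin 2)) :
    ((Perm.sign σ : ℤ) : ℂ) * evalF (w2 (Om g ℂ)) (fun k => X (σ k)) =
      evalF (w2 (Om g ℂ)) X := by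
  have key : ∀ σ : Perm (Fin 2), σ = 1 ∨ σ = Equiv.swap 0 1 := by decide
  rcases key σ with rfl | rfl
  · rw [Perm.sign_one]
    norm_num
  · rw [Perm.sign_swap (by decide)]
    have e1 : evalF (w2 (Om g ℂ)) (fun k => X ((Equiv.swap 0 1 : Perm (Fin 2)) k)) =
        evalF (rnm (Equiv.swap 0 1) (w2 (Om g ℂ))) X := (evalF_rnm _ _ _).symm
    have e2 : rnm (Equiv.swap 0 1) (w2 (Om g ℂ)) = (-1 : ℂ) • w2 (Om g ℂ) := by
      funext I
      change Om g ℂ (I _) (I _) = (-1 : ℂ) * Om g ℂ (I 0) (I 1)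
      rw [Equiv.swap_apply_left, Equiv.swap_apply_right, Om_anti]
      ring
    rw [e1, e2, evalF_smul]
    norm_num

theorem th_cast (v : Fin 2 → Fin g ⊕ Fin g → ℚ) :
    ((th g v : ℚ) : ℂ) = evalF (w2 (Om g ℂ)) (fun k => cv (v k)) := by
  have h0 : ∀ x : Fin 2 → Fin g ⊕ Fin g → ℚ,
      ((evalF (fun I : Fin 2 → Fin g ⊕ Fin g => Om g ℚ (I 0) (I 1)) x : ℚ) : ℂ) =
        evalF (w2 (Om g ℂ)) (fun k => cv (x k)) := by
    intro x
    rw [evalF_castK]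
    congr 1
    funext I
    change ((Om g ℚ (I 0) (I 1) : ℚ) : ℂ) = Om g ℂ (I 0) (I 1)
    rw [← Om_map ℂ]
    rfl
  have h1 : ((MultilinearMap.alternatization
      (evalM fun I : Fin 2 → Fin g ⊕ Fin g => Om g ℚ (I 0) (I 1)) v : ℚ) : ℂ) =
      2 * evalF (w2 (Om g ℂ)) (fun k => cv (v k)) := by
    rw [MultilinearMap.alternatization_apply, Rat.cast_sum]
    have h2 : ∀ σ : Perm (Fin 2), (((Perm.sign σ) • (evalM fun I : Fin 2 → Fin g ⊕ Fin g =>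
        Om g ℚ (I 0) (I 1)).domDomCongr σ v : ℚ) : ℂ) =
        evalF (w2 (Om g ℂ)) (fun k => cv (v k)) := by
      intro σ
      rw [← evalF_perm (fun k => cv (v k)) σ, Units.smul_def, zsmul_eq_mul, Rat.cast_mul,
        Rat.cast_intCast, MultilinearMap.domDomCongr_apply, evalM_apply, h0]
    rw [Finset.sum_congr rfl fun σ _ => h2 σ, Finset.sum_const, Finset.card_univ,
      Fintype.card_perm, Fintype.card_fin, nsmul_eq_mul]
    norm_num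
  unfold th
  rw [AlternatingMap.smul_apply, smul_eq_mul, Rat.cast_mul, h1]
  push_cast
  ring

variable {Z : Matrix (Fin g) (Fin g) ℂ}

/-- The polarization is a Hodge class. -/
theorem th_hodge (h : PM Z) : IsHodge (AVZ h).per (th g) := by
  have h1 := TA_two hodgeSys h (tht_Ivt h) inferInstance inferInstance (AVZ h)
    (fun _ => LinearMap.id) fun _ => ⟨LinearMap.id, fun v => rfl⟩
  have h2 : (fun v : Fin 2 → (AVZ h).H => ((th g v : ℚ) : ℂ)) = (2 : ℂ)⁻¹ •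
      gA (X := AVZ h) (fun _ => LinearMap.id) (tht g) := by
    funext v
    rw [Pi.smul_apply, smul_eq_mul, th_cast]
    unfold gA
    have h3 : ∀ σ : Perm (Fin 2), ((Perm.sign σ : ℤ) : ℂ) * evalF (tht g)
        (fun k => cv ((LinearMap.id : (AVZ h).H →ₗ[ℚ] (Fin g ⊕ Fin g → ℚ)) (v (σ k)))) =
        evalF (w2 (Om g ℂ)) (fun k => cv (v k)) := fun σ => evalF_perm (fun k => cv (v k)) σ
    rw [Finset.sum_congr rfl fun σ _ => h3 σ, Finset.sum_const, Finset.card_univ,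
      Fintype.card_perm, Fintype.card_fin, nsmul_eq_mul]
    norm_num
    ring
  have h3 : hodgeSys.A (AVZ h) (Fin 2) (th g) := by
    refine RA_descent ?_
    have h4 := Submodule.smul_mem _ ((2 : ℂ)⁻¹) h1
    rw [← h2] at h4
    exact h4
  exact h3 inferInstance

/-- The component in `H² ⊗ H²` of a class on the square. -/
def c0 : Fin 2 ⊕ Fin 2 → Fin 2 := Sum.elim (fun _ => 0) fun _ => 1

variable {h : PM Z}

/-- The class with variables indexed by `Fin 2 ⊕ Fin 2`. -/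
def re (f : (prodAV (AVZ h) (AVZ h)).H [⋀^Fin 4]→ₗ[ℚ] ℚ) :
    (prodAV (AVZ h) (AVZ h)).H [⋀^(Fin 2 ⊕ Fin 2)]→ₗ[ℚ] ℚ := f.domDomCongr finSumFinEquiv.symm

theorem re_cmp (f : (prodAV (AVZ h) (AVZ h)).H [⋀^Fin 4]→ₗ[ℚ] ℚ)
    (v : Fin 2 ⊕ Fin 2 → Fin g ⊕ Fin g → ℚ) : cmp (re f) c0 v =
      f ![(v (Sum.inl 0), 0), (v (Sum.inl 1), 0), (0, v (Sum.inr 0)), (0, v (Sum.inr 1))] := by
  change f (fun i : Fin 4 => incl (AVZ h) (c0 (finSumFinEquiv.symm i))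
    (v (finSumFinEquiv.symm i))) = _
  congr 1
  funext i
  fin_cases i <;> rfl

/-- The tensor of the component. -/
def tf (f : (prodAV (AVZ h) (AVZ h)).H [⋀^Fin 4]→ₗ[ℚ] ℚ) :
    Tn (Fin 2 ⊕ Fin 2) (Fin g ⊕ Fin g) := cst ℂ (CF (cmp (re f) c0))

theorem tf_anti (f : (prodAV (AVZ h) (AVZ h)).H [⋀^Fin 4]→ₗ[ℚ] ℚ) (i j : Fin 2 ⊕ Fin 2)
    (hij : i ≠ j) (hc : c0 i = c0 j) : rnm (Equiv.swap i j) (tf f) = -tf f := by
  funext z
  change ((cmp (re f) c0 (fun k => Pi.single (z (Equiv.swap i j k)) 1) : ℚ) : ℂ) =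
    -((cmp (re f) c0 (fun k => Pi.single (z k) 1) : ℚ) : ℂ)
  rw [cmp_apply, cmp_apply]
  have e1 : (fun m => incl (AVZ h) (c0 m) (Pi.single (z (Equiv.swap i j m)) 1)) =
      (fun m => incl (AVZ h) (c0 m) (Pi.single (z m) 1)) ∘ (Equiv.swap i j) := by
    funext m
    rw [Function.comp_apply]
    congr 2
    by_cases h1 : m = i
    · rw [h1, Equiv.swap_apply_left, hc]
    · by_cases h2 : m = j
      · rw [h2, Equiv.swap_apply_right, hc]
      · rw [Equiv.swap_apply_of_ne_of_ne h1 h2]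
  rw [e1, (re f).map_swap _ hij, Rat.cast_neg]

/-- A class is not exceptional if its component is a combination of the two symplectic invariants. -/
def Plain (f : (prodAV (AVZ h) (AVZ h)).H [⋀^Fin 4]→ₗ[ℚ] ℚ) : Prop :=
  ∃ a b : ℚ, ∀ x y z w : Fin g ⊕ Fin g → ℚ, f ![(x, 0), (y, 0), (0, z), (0, w)] =
    a * (th g ![x, y] * th g ![z, w]) +
      b * (th g ![x, z] * th g ![y, w] - th g ![x, w] * th g ![y, z])

theorem plain_of (hg : 2 ≤ g) {f : (prodAV (AVZ h) (AVZ h)).H [⋀^Fin 4]→ₗ[ℚ] ℚ}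
    (hx : ∃ x y : ℂ, ∀ z, tf f z = x * (Om g ℂ (z (Sum.inl 0)) (z (Sum.inl 1)) *
      Om g ℂ (z (Sum.inr 0)) (z (Sum.inr 1))) + y * (Om g ℂ (z (Sum.inl 0)) (z (Sum.inr 0)) *
      Om g ℂ (z (Sum.inl 1)) (z (Sum.inr 1)) - Om g ℂ (z (Sum.inl 0)) (z (Sum.inr 1)) *
      Om g ℂ (z (Sum.inl 1)) (z (Sum.inr 0)))) : Plain f := by
  obtain ⟨x, y, hxy⟩ := hx
  -- the coefficients are rational
  let i0 : Fin g := ⟨0, by omega⟩
  let i1 : Fin g := ⟨1, by omega⟩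
  have hne : i0 ≠ i1 := by
    intro h
    exact Nat.zero_ne_one (congrArg Fin.val h)
  have o1 : ∀ i : Fin g, Om g ℂ (Sum.inl i) (Sum.inr i) = 1 := Om_pt_inl
  have o2 : ∀ i j : Fin g, Om g ℂ (Sum.inl i) (Sum.inl j) = 0 := fun i j =>
    Om_eq_zero (by simp [pt])
  have o3 : ∀ i j : Fin g, i ≠ j → Om g ℂ (Sum.inl i) (Sum.inr j) = 0 := fun i j hij =>
    Om_eq_zero (by
      change (Sum.inr j : Fin g ⊕ Fin g) ≠ Sum.inr i
      exact fun h => hij (Sum.inr_injective h).symm)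
  obtain ⟨a, ha⟩ : ∃ a : ℚ, x = (a : ℂ) := by
    have e1 := hxy (Sum.elim ![Sum.inl i0, Sum.inr i0] ![Sum.inl i1, Sum.inr i1])
    refine ⟨CF (cmp (re f) c0) (Sum.elim ![Sum.inl i0, Sum.inr i0] ![Sum.inl i1, Sum.inr i1]), ?_⟩
    change tf f _ = x * (Om g ℂ (Sum.inl i0) (Sum.inr i0) * Om g ℂ (Sum.inl i1) (Sum.inr i1)) +
      y * (Om g ℂ (Sum.inl i0) (Sum.inl i1) * Om g ℂ (Sum.inr i0) (Sum.inr i1) -
        Om g ℂ (Sum.inl i0) (Sum.inr i1) * Om g ℂ (Sum.inr i0) (Sum.inl i1)) at e1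
    rw [o1, o1, o2, o3 _ _ hne] at e1
    have e2 : tf f (Sum.elim ![Sum.inl i0, Sum.inr i0] ![Sum.inl i1, Sum.inr i1]) = x := by
      rw [e1]
      ring
    exact e2.symm
  obtain ⟨b, hb⟩ : ∃ b : ℚ, y = (b : ℂ) := by
    have e1 := hxy (Sum.elim ![Sum.inl i0, Sum.inl i1] ![Sum.inr i0, Sum.inr i1])
    refine ⟨CF (cmp (re f) c0) (Sum.elim ![Sum.inl i0, Sum.inl i1] ![Sum.inr i0, Sum.inr i1]), ?_⟩
    change tf f _ = x * (Om g ℂ (Sum.inl i0) (Sum.inl i1) * Om g ℂ (Sum.inr i0) (Sum.inr i1)) +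
      y * (Om g ℂ (Sum.inl i0) (Sum.inr i0) * Om g ℂ (Sum.inl i1) (Sum.inr i1) -
        Om g ℂ (Sum.inl i0) (Sum.inr i1) * Om g ℂ (Sum.inl i1) (Sum.inr i0)) at e1
    rw [o1, o1, o2, o3 _ _ hne] at e1
    have e2 : tf f (Sum.elim ![Sum.inl i0, Sum.inl i1] ![Sum.inr i0, Sum.inr i1]) = y := by
      rw [e1]
      ring
    exact e2.symm
  refine ⟨a, b, fun u₁ u₂ u₃ u₄ => ?_⟩
  let v : Fin 2 ⊕ Fin 2 → Fin g ⊕ Fin g → ℚ := Sum.elim ![u₁, u₂] ![u₃, u₄]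
  let T1 : Tn (Fin 2 ⊕ Fin 2) (Fin g ⊕ Fin g) := prd (w2 (Om g ℂ)) (w2 (Om g ℂ))
  let T2 : Tn (Fin 2 ⊕ Fin 2) (Fin g ⊕ Fin g) := rnm (Equiv.swap (Sum.inl 1) (Sum.inr 0)) T1
  let T3 : Tn (Fin 2 ⊕ Fin 2) (Fin g ⊕ Fin g) := rnm (Equiv.swap (Sum.inr 0) (Sum.inr 1)) T2
  have hT : tf f = x • T1 + y • (T2 + (-1 : ℂ) • T3) := by
    funext z
    rw [hxy]
    change _ = x * (Om g ℂ (z (Sum.inl 0)) (z (Sum.inl 1)) *
      Om g ℂ (z (Sum.inr 0)) (z (Sum.inr 1))) + y * (T1 (z ∘ Equiv.swap (Sum.inl 1) (Sum.inr 0)) +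
        (-1 : ℂ) * T1 ((z ∘ Equiv.swap (Sum.inr 0) (Sum.inr 1)) ∘
          Equiv.swap (Sum.inl 1) (Sum.inr 0)))
    have f1 : T1 (z ∘ Equiv.swap (Sum.inl 1) (Sum.inr 0)) =
        Om g ℂ (z (Sum.inl 0)) (z (Sum.inr 0)) * Om g ℂ (z (Sum.inl 1)) (z (Sum.inr 1)) := by
      change Om g ℂ (z _) (z _) * Om g ℂ (z _) (z _) = _
      rw [Equiv.swap_apply_left, Equiv.swap_apply_right,
        Equiv.swap_apply_of_ne_of_ne (by simp) (by simp),
        Equiv.swap_apply_of_ne_of_ne (by simp) (by simp)]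
    have f2 : T1 ((z ∘ Equiv.swap (Sum.inr 0) (Sum.inr 1)) ∘
          Equiv.swap (Sum.inl 1) (Sum.inr 0)) =
        Om g ℂ (z (Sum.inl 0)) (z (Sum.inr 1)) * Om g ℂ (z (Sum.inl 1)) (z (Sum.inr 0)) := by
      change Om g ℂ (z (Equiv.swap (Sum.inr 0) (Sum.inr 1) (Equiv.swap (Sum.inl 1) (Sum.inr 0)
        (Sum.inl 0)))) (z (Equiv.swap (Sum.inr 0) (Sum.inr 1) (Equiv.swap (Sum.inl 1) (Sum.inr 0)
        (Sum.inl 1)))) * Om g ℂ (z (Equiv.swap (Sum.inr 0) (Sum.inr 1)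
        (Equiv.swap (Sum.inl 1) (Sum.inr 0) (Sum.inr 0)))) (z (Equiv.swap (Sum.inr 0) (Sum.inr 1)
        (Equiv.swap (Sum.inl 1) (Sum.inr 0) (Sum.inr 1)))) = _
      have g1 : ∀ k : Fin 2 ⊕ Fin 2, Equiv.swap (Sum.inr 0) (Sum.inr 1)
          (Equiv.swap (Sum.inl 1) (Sum.inr 0) k) =
          (Sum.elim ![Sum.inl 0, Sum.inr 1] ![Sum.inl 1, Sum.inr 0] : Fin 2 ⊕ Fin 2 →
            Fin 2 ⊕ Fin 2) k := by decide
      simp only [g1]
      rfl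
    rw [f1, f2]
    ring
  have hE : ((f ![(u₁, 0), (u₂, 0), (0, u₃), (0, u₄)] : ℚ) : ℂ) =
      evalF (tf f) (fun k => cv (v k)) := by
    have e1 := re_cmp f v
    change _ = f ![(u₁, 0), (u₂, 0), (0, u₃), (0, u₄)] at e1
    rw [← e1, CF_eval, evalF_castK]
    rfl
  have hth : ∀ p q : Fin g ⊕ Fin g → ℚ, ((th g ![p, q] : ℚ) : ℂ) =
      evalF (w2 (Om g ℂ)) ![cv p, cv q] := by
    intro p q
    rw [th_cast]
    congr 1
    funext k
    fin_cases k <;> rfl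
  have w1 : evalF T1 (fun k => cv (v k)) = ((th g ![u₁, u₂] * th g ![u₃, u₄] : ℚ) : ℂ) := by
    rw [evalF_prd, Rat.cast_mul, hth, hth]
    congr 2
    · funext k
      fin_cases k <;> rfl
    · funext k
      fin_cases k <;> rfl
  have w2' : evalF T2 (fun k => cv (v k)) = ((th g ![u₁, u₃] * th g ![u₂, u₄] : ℚ) : ℂ) := by
    rw [evalF_rnm, evalF_prd, Rat.cast_mul, hth, hth]
    congr 2
    · funext k
      fin_cases k
      · change cv (v (Equiv.swap (Sum.inl 1) (Sum.inr 0) (Sum.inl 0))) = _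
        rw [Equiv.swap_apply_of_ne_of_ne (by simp) (by simp)]
        rfl
      · change cv (v (Equiv.swap (Sum.inl 1) (Sum.inr 0) (Sum.inl 1))) = _
        rw [Equiv.swap_apply_left]
        rfl
    · funext k
      fin_cases k
      · change cv (v (Equiv.swap (Sum.inl 1) (Sum.inr 0) (Sum.inr 0))) = _
        rw [Equiv.swap_apply_right]
        rfl
      · change cv (v (Equiv.swap (Sum.inl 1) (Sum.inr 0) (Sum.inr 1))) = _
        rw [Equiv.swap_apply_of_ne_of_ne (by simp) (by simp)]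
        rfl
  have w3 : evalF T3 (fun k => cv (v k)) = ((th g ![u₁, u₄] * th g ![u₂, u₃] : ℚ) : ℂ) := by
    rw [evalF_rnm, evalF_rnm, evalF_prd, Rat.cast_mul, hth, hth]
    have g1 : ∀ k : Fin 2 ⊕ Fin 2, Equiv.swap (Sum.inr 0) (Sum.inr 1)
        (Equiv.swap (Sum.inl 1) (Sum.inr 0) k) =
        (Sum.elim ![Sum.inl 0, Sum.inr 1] ![Sum.inl 1, Sum.inr 0] : Fin 2 ⊕ Fin 2 →
          Fin 2 ⊕ Fin 2) k := by decide
    congr 2
    · funext k
      change cv (v (Equiv.swap (Sum.inr 0) (Sum.inr 1)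
        (Equiv.swap (Sum.inl 1) (Sum.inr 0) (Sum.inl k)))) = _
      rw [g1]
      fin_cases k <;> rfl
    · funext k
      change cv (v (Equiv.swap (Sum.inr 0) (Sum.inr 1)
        (Equiv.swap (Sum.inl 1) (Sum.inr 0) (Sum.inr k)))) = _
      rw [g1]
      fin_cases k <;> rfl
  have hfin : ((f ![(u₁, 0), (u₂, 0), (0, u₃), (0, u₄)] : ℚ) : ℂ) =
      ((a * (th g ![u₁, u₂] * th g ![u₃, u₄]) + b * (th g ![u₁, u₃] * th g ![u₂, u₄] -
        th g ![u₁, u₄] * th g ![u₂, u₃]) : ℚ) : ℂ) := by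
    rw [hE, hT, evalF_add, evalF_smul, evalF_smul, evalF_add, evalF_smul, w1, w2', w3, ha, hb]
    push_cast
    ring
  exact_mod_cast hfin

/-- The data. -/
theorem dat_of {r : Fin 3 → (M2 →ₗ[ℂ] Matrix (Fin 4 ⊕ Fin 4) (Fin 4 ⊕ Fin 4) ℂ)}
    {Z : Matrix (Fin 4) (Fin 4) ℂ} (h : PM Z) (hmul : ∀ i X Y, r i (X * Y) = r i X * r i Y)
    (hone : ∀ i, r i 1 = 1) (hcomm : ∀ i i', i ≠ i' → ∀ X Y, r i X * r i' Y = r i' Y * r i X)
    (hlie : LA {DZ Z} = Submodule.span ℂ {M | ∃ i X, Matrix.trace X = 0 ∧ M = r i X}) :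
    Dat r (DZ Z) (Om 4 ℂ) where
  three := ⟨hmul, hone, hcomm, by simp⟩
  inv := DZ_sq h.det
  lie := hlie
  sp := PM.sp' h
  om := Om_sq ℂ
  omT := Om_transpose ℂ
  real := fun σ => by
    ext i j
    rw [Matrix.map_apply, ← Om_map ℂ, Matrix.map_apply]
    exact map_ratCast σ _

/-- Renaming the variables of a Hodge class. -/
theorem myCongr {X : AV} {κ κ' : Type*} (e : κ ≃ κ') {f : X.H [⋀^κ]→ₗ[ℚ] ℚ}
    (hf : IsHodge X.per f) : IsHodge X.per (f.domDomCongr e) := by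
  obtain ⟨ψ, h1, h2⟩ := hf
  refine ⟨ψ.domDomCongr e, fun v => ?_, fun z hz u => ?_⟩
  · rw [MultilinearMap.domDomCongr_apply, AlternatingMap.domDomCongr_apply]
    exact h1 _
  · rw [MultilinearMap.domDomCongr_apply, MultilinearMap.domDomCongr_apply]
    exact h2 z hz _

/-- **One exceptional class suffices.** -/
theorem allHodge_four {r : Fin 3 → (M2 →ₗ[ℂ] Matrix (Fin 4 ⊕ Fin 4) (Fin 4 ⊕ Fin 4) ℂ)}
    {Z : Matrix (Fin 4) (Fin 4) ℂ} (h : PM Z) (hd : Dat r (DZ Z) (Om 4 ℂ)) (𝒜 : Sys)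
    {f : (prodAV (AVZ h) (AVZ h)).H [⋀^Fin 4]→ₗ[ℚ] ℚ}
    (hf : IsHodge (prodAV (AVZ h) (AVZ h)).per f) (hA : 𝒜.A (prodAV (AVZ h) (AVZ h)) (Fin 4) f)
    (hex : ¬ Plain f) (X : AV) (hX : ∀ Y, IsFactor Y X → IsFactor Y (AVZ h)) :
    𝒜.AllHodge X := by
  have hms : IsMS0 (DZ Z) (fun _ : Fin 3 => ()) r (fun _ : Unit => 1) :=
    { mul := hd.three.mul, one := hd.three.one, comm := hd.three.comm
      idem := fun _ => Matrix.mul_one _
      orth := fun j j' hj => absurd (Subsingleton.elim j j') hj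
      sum := by simp
      surj := fun j => ⟨0, Subsingleton.elim _ _⟩
      lie := hd.lie }
  refine allHodge_of 𝒜 h (fun κ _ _ => ?_) X hX
  refine inv_mem_anti hms (PM.sp' h) (Om_sq ℂ) (Om_transpose ℂ) (famTA 𝒜 h) (TA_two 𝒜 h)
    (fun t ht _ h2 => ?_) κ
  refine hd.anti_mem (famTA 𝒜 h) (TA_two 𝒜 h (tht_Ivt h)) (fun σ u hu => TA_conj hu σ)
    (t := tf f) (cmp_Ivt (f := re f) (myCongr finSumFinEquiv.symm hf) c0)
    (tf_anti f _ _ (by simp) rfl) (cmp_TA (f := re f) (𝒜.reindex _ _ hA) c0)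
    (fun hx => hex (plain_of (by norm_num) hx)) ht h2

end

end Pool.Agent.H841.MF
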