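import Pool.Agent.H841.MS.One
import Pool.Agent.H841.MS.Cross

/-!
# Commuting pairs of algebras of two by two matrices
-/

set_option linter.unusedSectionVars false

namespace Pool.Agent.H841.MF

open Finset Matrix Pool.Agent.H841.MS

noncomputable section

variable {R : Type} [Ring R] [Algebra ℂ R]

abbrev M2 : Type := Matrix (Fin 2) (Fin 2) ℂ

theorem mu_mul' (X : M2) (a b : Fin 2) : X * mu a b = ∑ c, X c a • mu c b := by
  ext x y
  simp only [Matrix.mul_apply, Fin.sum_univ_two, Matrix.add_apply, Matrix.smul_apply, smul_eq_mul,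
    Matrix.single_apply]
  fin_cases x <;> fin_cases y <;> fin_cases a <;> fin_cases b <;> simp

theorem mul_mu' (X : M2) (a b : Fin 2) : mu a b * X = ∑ c, X b c • mu a c := by
  ext x y
  simp only [Matrix.mul_apply, Fin.sum_univ_two, Matrix.add_apply, Matrix.smul_apply, smul_eq_mul,
    Matrix.single_apply]
  fin_cases x <;> fin_cases y <;> fin_cases a <;> fin_cases b <;> simp

/-- The canonical tensor. -/
theorem canon_left {N : Type} [AddCommGroup N] [Module ℂ N] (Φ : M2 →ₗ[ℂ] M2 →ₗ[ℂ] N) (X : M2) :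
    ∑ a, ∑ b, Φ (X * mu a b) (mu b a) = ∑ a, ∑ b, Φ (mu a b) (mu b a * X) := by
  have h1 : ∀ a b, Φ (X * mu a b) (mu b a) = ∑ c, X c a • Φ (mu c b) (mu b a) := by
    intro a b
    rw [mu_mul', map_sum, LinearMap.sum_apply]
    exact Finset.sum_congr rfl fun c _ => by rw [map_smul, LinearMap.smul_apply]
  have h2 : ∀ a b, Φ (mu a b) (mu b a * X) = ∑ c, X a c • Φ (mu a b) (mu b c) := by
    intro a b
    rw [mul_mu', map_sum]
    exact Finset.sum_congr rfl fun c _ => by rw [map_smul]
  simp only [h1, h2]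
  rw [Finset.sum_comm]
  conv_rhs => rw [Finset.sum_comm]
  refine Finset.sum_congr rfl fun b _ => ?_
  rw [Finset.sum_comm]

theorem canon_mid {N : Type} [AddCommGroup N] [Module ℂ N] (Φ : M2 →ₗ[ℂ] M2 →ₗ[ℂ] N) (X : M2) :
    ∑ a, ∑ b, Φ (mu a b * X) (mu b a) = ∑ a, ∑ b, Φ (mu a b) (X * mu b a) := by
  have h1 : ∀ a b, Φ (mu a b * X) (mu b a) = ∑ c, X b c • Φ (mu a c) (mu b a) := by
    intro a b
    rw [mul_mu', map_sum, LinearMap.sum_apply]
    exact Finset.sum_congr rfl fun c _ => by rw [map_smul, LinearMap.smul_apply]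
  have h2 : ∀ a b, Φ (mu a b) (X * mu b a) = ∑ c, X c b • Φ (mu a b) (mu c a) := by
    intro a b
    rw [mu_mul', map_sum]
    exact Finset.sum_congr rfl fun c _ => by rw [map_smul]
  simp only [h1, h2]
  refine Finset.sum_congr rfl fun a _ => ?_
  rw [Finset.sum_comm]

/-- The bilinear map `(X, Y) ↦ α X * T * β Y`. -/
def bil (α β : M2 →ₐ[ℂ] R) (T : R) : M2 →ₗ[ℂ] M2 →ₗ[ℂ] R :=
  LinearMap.mk₂ ℂ (fun X Y => α X * T * β Y) (fun X X' Y => by rw [map_add, add_mul, add_mul])
    (fun c X Y => by rw [map_smul, smul_mul_assoc, smul_mul_assoc])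
    (fun X Y Y' => by rw [map_add, mul_add]) (fun c X Y => by rw [map_smul, mul_smul_comm])

/-- The exchange. -/
def ss (α β : M2 →ₐ[ℂ] R) : R := ∑ a, ∑ b, α (mu a b) * β (mu b a)

/-- The average. -/
def av (α : M2 →ₐ[ℂ] R) (T : R) : R := ∑ a, ∑ b, α (mu a b) * T * α (mu b a)

section one

variable {α β : M2 →ₐ[ℂ] R}

theorem sum_mu_mu : ∑ a : Fin 2, ∑ b : Fin 2, mu a b * mu b a = (2 : ℂ) • (1 : M2) := by
  ext x y
  simp only [Fin.sum_univ_two, Matrix.add_apply, Matrix.smul_apply, smul_eq_mul, Matrix.mul_apply,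
    Matrix.single_apply, Matrix.one_apply]
  fin_cases x <;> fin_cases y <;> simp <;> norm_num

theorem ss_left (_hc : ∀ X Y, α X * β Y = β Y * α X) (X : M2) :
    α X * ss α β = ss α β * β X := by
  have h := canon_left (bil α β 1) X
  have e1 : ∀ a b : Fin 2, bil α β 1 (X * mu a b) (mu b a) = α X * (α (mu a b) * β (mu b a)) := by
    intro a b
    change α (X * mu a b) * 1 * β (mu b a) = _
    rw [map_mul, mul_one, mul_assoc]
  have e2 : ∀ a b : Fin 2, bil α β 1 (mu a b) (mu b a * X) = α (mu a b) * β (mu b a) * β X := by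
    intro a b
    change α (mu a b) * 1 * β (mu b a * X) = _
    rw [map_mul, mul_one, mul_assoc]
  simp only [e1, e2] at h
  unfold ss
  rw [Finset.mul_sum, Finset.sum_mul]
  simp only [Finset.mul_sum, Finset.sum_mul]
  exact h

theorem ss_symm (hc : ∀ X Y, α X * β Y = β Y * α X) : ss α β = ss β α := by
  unfold ss
  rw [Finset.sum_comm]
  exact Finset.sum_congr rfl fun a _ => Finset.sum_congr rfl fun b _ => hc _ _

theorem ss_right (hc : ∀ X Y, α X * β Y = β Y * α X) (X : M2) :
    β X * ss α β = ss α β * α X := by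
  rw [ss_symm hc]
  exact ss_left (fun X Y => (hc Y X).symm) X

theorem ss_sq (hc : ∀ X Y, α X * β Y = β Y * α X) : ss α β * ss α β = 1 := by
  have h1 : ∀ a b c d : Fin 2, α (mu a b) * β (mu b a) * (α (mu c d) * β (mu d c)) =
      if b = c then (if a = d then α (mu a a) * β (mu b b) else 0) else 0 := by
    intro a b c d
    have e1 : α (mu a b) * β (mu b a) * (α (mu c d) * β (mu d c)) =
        α (mu a b * mu c d) * β (mu b a * mu d c) := by
      rw [map_mul, map_mul, mul_assoc, ← mul_assoc (β (mu b a)), ← hc, mul_assoc, mul_assoc]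
    rw [e1, mu_mul, mu_mul]
    by_cases hbc : b = c
    · by_cases had : a = d
      · subst hbc had
        simp
      · simp [had]
    · simp [hbc]
  unfold ss
  simp only [Finset.sum_mul, Finset.mul_sum, h1]
  have h2 : ∀ c d : Fin 2, ∑ a : Fin 2, ∑ b : Fin 2, (if b = c then
      (if a = d then α (mu a a) * β (mu b b) else 0) else 0) = α (mu d d) * β (mu c c) := by
    intro c d
    rw [Finset.sum_eq_single d (fun a _ ha => by simp [ha]) (by simp)]
    rw [Finset.sum_eq_single c (fun b _ hb => by simp [hb]) (by simp)]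
    simp
  simp only [h2, ← Finset.mul_sum, ← Finset.sum_mul, ← map_sum, ← one_eq_mu, map_one, mul_one]

/-- The average commutes with everything. -/
theorem av_left (T : R) (X : M2) : α X * av α T = av α T * α X := by
  have h := canon_left (bil α α T) X
  have e1 : ∀ a b : Fin 2, bil α α T (X * mu a b) (mu b a) = α X * (α (mu a b) * T * α (mu b a)) := by
    intro a b
    change α (X * mu a b) * T * α (mu b a) = _
    rw [map_mul]
    simp only [mul_assoc]
  have e2 : ∀ a b : Fin 2, bil α α T (mu a b) (mu b a * X) =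
      α (mu a b) * T * α (mu b a) * α X := by
    intro a b
    change α (mu a b) * T * α (mu b a * X) = _
    rw [map_mul]
    simp only [mul_assoc]
  simp only [e1, e2] at h
  unfold av
  simp only [Finset.mul_sum, Finset.sum_mul]
  exact h

theorem av_right (hc : ∀ X Y, α X * β Y = β Y * α X) {T : R}
    (hT : ∀ X : M2, (α X + β X) * T = T * (α X + β X)) (X : M2) :
    β X * av α T = av α T * β X := by
  have h := canon_mid (bil α α T) X
  have e1 : ∀ a b : Fin 2, bil α α T (mu a b * X) (mu b a) =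
      α (mu a b) * (α X * T) * α (mu b a) := by
    intro a b
    change α (mu a b * X) * T * α (mu b a) = _
    rw [map_mul]
    simp only [mul_assoc]
  have e2 : ∀ a b : Fin 2, bil α α T (mu a b) (X * mu b a) =
      α (mu a b) * (T * α X) * α (mu b a) := by
    intro a b
    change α (mu a b) * T * α (X * mu b a) = _
    rw [map_mul]
    simp only [mul_assoc]
  simp only [e1, e2] at h
  have h0 : β X * T - T * β X = T * α X - α X * T := by
    have h1 := hT X
    rw [add_mul, mul_add] at h1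
    rw [sub_eq_sub_iff_add_eq_add, add_comm, h1]
  have h2 : β X * av α T - av α T * β X = ∑ a, ∑ b, α (mu a b) * (T * α X) * α (mu b a) -
      ∑ a, ∑ b, α (mu a b) * (α X * T) * α (mu b a) := by
    unfold av
    simp only [Finset.mul_sum, Finset.sum_mul, ← Finset.sum_sub_distrib]
    refine Finset.sum_congr rfl fun a _ => Finset.sum_congr rfl fun b _ => ?_
    have e3 : β X * (α (mu a b) * T * α (mu b a)) = α (mu a b) * (β X * T) * α (mu b a) := by
      rw [← mul_assoc, ← mul_assoc, ← hc]
      simp only [mul_assoc]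
    have e4 : α (mu a b) * T * α (mu b a) * β X = α (mu a b) * (T * β X) * α (mu b a) := by
      rw [mul_assoc, hc]
      simp only [mul_assoc]
    rw [e3, e4, ← sub_mul, ← mul_sub, h0, mul_sub, sub_mul]
  rw [h, sub_self] at h2
  exact sub_eq_zero.1 h2

/-- The basic relation. -/
theorem av_rel (hc : ∀ X Y, α X * β Y = β Y * α X) {T : R}
    (hT : ∀ X : M2, (α X + β X) * T = T * (α X + β X)) :
    av α T + av β (T * ss α β) * ss α β = (2 : ℂ) • T + T * ss α β := by
  have h1 : ∀ a b : Fin 2, α (mu a b) * T * α (mu b a) = T * (α (mu a b * mu b a)) +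
      T * (α (mu b a) * β (mu a b)) - β (mu a b) * (T * ss α β) * β (mu b a) * ss α β := by
    intro a b
    have h0 : α (mu a b) * T = T * α (mu a b) + T * β (mu a b) - β (mu a b) * T := by
      have h1 := hT (mu a b)
      rw [add_mul, mul_add] at h1
      rw [← h1]
      abel
    have h2 : α (mu b a) = ss α β * β (mu b a) * ss α β := by
      rw [← ss_left hc, mul_assoc, ss_sq hc, mul_one]
    rw [h0, sub_mul, add_mul, map_mul]
    have e2 : T * β (mu a b) * α (mu b a) = T * (α (mu b a) * β (mu a b)) := by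
      rw [mul_assoc, hc]
    have e3 : β (mu a b) * T * α (mu b a) = β (mu a b) * (T * ss α β) * β (mu b a) * ss α β := by
      conv_lhs => rw [h2]
      simp only [mul_assoc]
    rw [e2, e3, mul_assoc T]
  unfold av
  simp only [h1, Finset.sum_add_distrib, Finset.sum_sub_distrib]
  have e1 : ∑ a : Fin 2, ∑ b : Fin 2, T * α (mu a b * mu b a) = (2 : ℂ) • T := by
    simp only [← Finset.mul_sum, ← map_sum]
    rw [sum_mu_mu, map_smul, map_one, mul_smul_comm, mul_one]
  have e2 : ∑ a : Fin 2, ∑ b : Fin 2, T * (α (mu b a) * β (mu a b)) = T * ss α β := by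
    simp only [← Finset.mul_sum]
    rw [Finset.sum_comm]
    rfl
  rw [e1, e2]
  simp only [Finset.sum_mul]
  abel

/-- **The commutant.** -/
theorem commutant (hc : ∀ X Y, α X * β Y = β Y * α X) {T : R}
    (hT : ∀ X : M2, (α X + β X) * T = T * (α X + β X)) :
    ∃ A B : R, (∀ X, α X * A = A * α X) ∧ (∀ X, β X * A = A * β X) ∧ (∀ X, α X * B = B * α X) ∧
      (∀ X, β X * B = B * β X) ∧ T = A + B * ss α β ∧
      ∀ y : R, (∀ X, y * α X = α X * y) → (∀ X, y * β X = β X * y) → y * T = T * y →
        y * A = A * y ∧ y * B = B * y := by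
  have hs : ∀ X : M2, (α X + β X) * ss α β = ss α β * (α X + β X) := by
    intro X
    rw [add_mul, mul_add, ss_left hc, ss_right hc, add_comm]
  have hTs : ∀ X : M2, (β X + α X) * (T * ss α β) = T * ss α β * (β X + α X) := by
    intro X
    rw [add_comm (β X), ← mul_assoc, hT, mul_assoc, hs, mul_assoc]
  have hr := av_rel hc hT
  let P := av α T
  let Q := av β (T * ss α β)
  have hcomm : ∀ y : R, (∀ X, y * α X = α X * y) → (∀ X, y * β X = β X * y) → y * T = T * y →
      y * P = P * y ∧ y * Q = Q * y := by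
    intro y h1 h2 h3
    have h4 : y * ss α β = ss α β * y := by
      unfold ss
      simp only [Finset.mul_sum, Finset.sum_mul]
      refine Finset.sum_congr rfl fun a _ => Finset.sum_congr rfl fun b _ => ?_
      rw [← mul_assoc, h1, mul_assoc, h2, mul_assoc]
    have h5 : ∀ (γ : M2 →ₐ[ℂ] R) (U : R), (∀ X, y * γ X = γ X * y) → y * U = U * y →
        y * av γ U = av γ U * y := by
      intro γ U hγ hU
      unfold av
      simp only [Finset.mul_sum, Finset.sum_mul]
      refine Finset.sum_congr rfl fun a _ => Finset.sum_congr rfl fun b _ => ?_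
      rw [← mul_assoc, ← mul_assoc, hγ, mul_assoc (γ _) y, hU, mul_assoc, mul_assoc, hγ]
      simp only [mul_assoc]
    exact ⟨h5 α T h1 h3, h5 β _ h2 (by rw [← mul_assoc, h3, mul_assoc, h4, mul_assoc])⟩
  have hPα : ∀ X, α X * P = P * α X := av_left T
  have hPβ : ∀ X, β X * P = P * β X := av_right hc hT
  have hQβ : ∀ X, β X * Q = Q * β X := av_left _
  have hQα : ∀ X, α X * Q = Q * α X := av_right (fun X Y => (hc Y X).symm) hTs
  refine ⟨(3 : ℂ)⁻¹ • ((2 : ℂ) • P - Q), (3 : ℂ)⁻¹ • ((2 : ℂ) • Q - P), fun X => ?_, fun X => ?_,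
    fun X => ?_, fun X => ?_, ?_, fun y h1 h2 h3 => ?_⟩
  · rw [mul_smul_comm, smul_mul_assoc, mul_sub, sub_mul, mul_smul_comm, smul_mul_assoc, hPα, hQα]
  · rw [mul_smul_comm, smul_mul_assoc, mul_sub, sub_mul, mul_smul_comm, smul_mul_assoc, hPβ, hQβ]
  · rw [mul_smul_comm, smul_mul_assoc, mul_sub, sub_mul, mul_smul_comm, smul_mul_assoc, hPα, hQα]
  · rw [mul_smul_comm, smul_mul_assoc, mul_sub, sub_mul, mul_smul_comm, smul_mul_assoc, hPβ, hQβ]
  · have h2 : (P + Q * ss α β) * ss α β = (2 : ℂ) • (T * ss α β) + T := by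
      rw [hr, add_mul, smul_mul_assoc, mul_assoc T, ss_sq hc, mul_one]
    rw [add_mul, mul_assoc, ss_sq hc, mul_one] at h2
    have h3 : (3 : ℂ) • T = (2 : ℂ) • (P + Q * ss α β) - (P * ss α β + Q) := by
      rw [hr, h2]
      module
    have h4 : T = (3 : ℂ)⁻¹ • ((2 : ℂ) • (P + Q * ss α β) - (P * ss α β + Q)) := by
      rw [← h3, smul_smul, inv_mul_cancel₀ (by norm_num), one_smul]
    conv_lhs => rw [h4]
    rw [smul_mul_assoc, sub_mul, smul_mul_assoc]
    module
  · obtain ⟨h4, h5⟩ := hcomm y h1 h2 h3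
    constructor
    · rw [mul_smul_comm, smul_mul_assoc, mul_sub, sub_mul, mul_smul_comm, smul_mul_assoc, h4, h5]
    · rw [mul_smul_comm, smul_mul_assoc, mul_sub, sub_mul, mul_smul_comm, smul_mul_assoc, h4, h5]

end one

end

end Pool.Agent.H841.MF
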