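import Pool.Agent.H841.MF.Alg

/-!
# Three commuting pairs of algebras of two by two matrices
-/

set_option linter.unusedSectionVars false

namespace Pool.Agent.H841.MF

open Finset Matrix Pool.Agent.H841.MS

noncomputable section

variable {R : Type} [Ring R] [Algebra ℂ R]

/-- The data: three commuting pairs of homomorphisms with scalar commutant, and the total exchange. -/
structure Trip (α β : Fin 3 → (M2 →ₐ[ℂ] R)) (P : R) : Prop where
  ab : ∀ i j X Y, α i X * β j Y = β j Y * α i X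
  aa : ∀ i j, i ≠ j → ∀ X Y, α i X * α j Y = α j Y * α i X
  bb : ∀ i j, i ≠ j → ∀ X Y, β i X * β j Y = β j Y * β i X
  sc : ∀ T, (∀ i X, α i X * T = T * α i X) → (∀ i X, β i X * T = T * β i X) → ∃ c : ℂ, T = c • 1
  P_eq : P = ss (α 0) (β 0) * ss (α 1) (β 1) * ss (α 2) (β 2)

variable {α β : Fin 3 → (M2 →ₐ[ℂ] R)} {P : R}

/-- The exchange in the factor `i`. -/
abbrev sf (α β : Fin 3 → (M2 →ₐ[ℂ] R)) (i : Fin 3) : R := ss (α i) (β i)

namespace Trip

variable (h : Trip α β P)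
include h

theorem sq (i : Fin 3) : sf α β i * sf α β i = 1 := ss_sq (h.ab i i)

theorem a_s {i j : Fin 3} (hij : i ≠ j) (X : M2) : α i X * sf α β j = sf α β j * α i X := by
  unfold sf ss
  simp only [Finset.mul_sum, Finset.sum_mul]
  refine Finset.sum_congr rfl fun a _ => Finset.sum_congr rfl fun b _ => ?_
  rw [← mul_assoc, h.aa i j hij, mul_assoc, h.ab i j, mul_assoc]

theorem b_s {i j : Fin 3} (hij : i ≠ j) (X : M2) : β i X * sf α β j = sf α β j * β i X := by
  unfold sf ss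
  simp only [Finset.mul_sum, Finset.sum_mul]
  refine Finset.sum_congr rfl fun a _ => Finset.sum_congr rfl fun b _ => ?_
  rw [← mul_assoc, ← h.ab j i, mul_assoc, h.bb i j hij, mul_assoc]

theorem ss_comm (i j : Fin 3) : sf α β i * sf α β j = sf α β j * sf α β i := by
  by_cases hij : i = j
  · rw [hij]
  conv_lhs => enter [1]; unfold sf ss
  conv_rhs => enter [2]; unfold sf ss
  simp only [Finset.mul_sum, Finset.sum_mul]
  refine Finset.sum_congr rfl fun a _ => Finset.sum_congr rfl fun b _ => ?_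
  rw [mul_assoc, h.b_s hij, ← mul_assoc, h.a_s hij, mul_assoc]

/-- The product of the exchanges, in any order. -/
theorem P_eq' {i j k : Fin 3} (hij : i ≠ j) (hik : i ≠ k) (hjk : j ≠ k) :
    P = sf α β i * sf α β j * sf α β k := by
  have h01 := h.ss_comm 0 1
  have h02 := h.ss_comm 0 2
  have h12 := h.ss_comm 1 2
  rw [h.P_eq]
  change sf α β 0 * sf α β 1 * sf α β 2 = _
  have key : ∀ i j k : Fin 3, i ≠ j → i ≠ k → j ≠ k → (i = 0 ∧ j = 1 ∧ k = 2) ∨
      (i = 0 ∧ j = 2 ∧ k = 1) ∨ (i = 1 ∧ j = 0 ∧ k = 2) ∨ (i = 1 ∧ j = 2 ∧ k = 0) ∨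
      (i = 2 ∧ j = 0 ∧ k = 1) ∨ (i = 2 ∧ j = 1 ∧ k = 0) := by decide
  rcases key i j k hij hik hjk with ⟨rfl, rfl, rfl⟩ | ⟨rfl, rfl, rfl⟩ | ⟨rfl, rfl, rfl⟩ |
    ⟨rfl, rfl, rfl⟩ | ⟨rfl, rfl, rfl⟩ | ⟨rfl, rfl, rfl⟩
  · rfl
  · rw [mul_assoc, h12, ← mul_assoc]
  · rw [h01]
  · rw [h01, mul_assoc, h02, ← mul_assoc]
  · rw [mul_assoc, h12, ← mul_assoc, h02]
  · rw [h01, mul_assoc, h02, ← mul_assoc, h12]

theorem PP : P * P = 1 := by
  have e1 := h.P_eq' (i := 2) (j := 0) (k := 1) (by decide) (by decide) (by decide)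
  have e2 := h.P_eq' (i := 1) (j := 0) (k := 2) (by decide) (by decide) (by decide)
  have e3 : sf α β 2 * sf α β 0 * sf α β 1 * (sf α β 1 * sf α β 0 * sf α β 2) =
      sf α β 2 * (sf α β 0 * (sf α β 1 * sf α β 1) * sf α β 0) * sf α β 2 := by
    simp only [mul_assoc]
  have e4 : P * P = sf α β 2 * sf α β 0 * sf α β 1 * (sf α β 1 * sf α β 0 * sf α β 2) := by
    rw [← e1, ← e2]
  rw [e4, e3, h.sq, mul_one, h.sq, mul_one, h.sq]

/-- The commutant of the diagonal algebras. -/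
theorem three {T : R} (hT : ∀ i X, (α i X + β i X) * T = T * (α i X + β i X)) :
    ∃ c : Fin 8 → ℂ, T = c 0 • 1 + c 1 • sf α β 0 + c 2 • sf α β 1 + c 3 • sf α β 2 +
      c 4 • (sf α β 0 * sf α β 1) + c 5 • (sf α β 0 * sf α β 2) + c 6 • (sf α β 1 * sf α β 2) +
      c 7 • (sf α β 0 * sf α β 1 * sf α β 2) := by
  -- one step
  have step : ∀ (i : Fin 3) (T : R), (∀ j X, (α j X + β j X) * T = T * (α j X + β j X)) →
      ∃ A B : R, T = A + B * sf α β i ∧
        (∀ X, α i X * A = A * α i X) ∧ (∀ X, β i X * A = A * β i X) ∧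
        (∀ X, α i X * B = B * α i X) ∧ (∀ X, β i X * B = B * β i X) ∧
        (∀ j X, (α j X + β j X) * A = A * (α j X + β j X)) ∧
        (∀ j X, (α j X + β j X) * B = B * (α j X + β j X)) ∧
        (∀ j, j ≠ i → (∀ X, α j X * T = T * α j X) → (∀ X, β j X * T = T * β j X) →
          (∀ X, α j X * A = A * α j X) ∧ (∀ X, β j X * A = A * β j X) ∧
          (∀ X, α j X * B = B * α j X) ∧ (∀ X, β j X * B = B * β j X)) := by
    intro i T hT
    obtain ⟨A, B, h1, h2, h3, h4, h5, h6⟩ := commutant (h.ab i i) (hT i)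
    refine ⟨A, B, h5, h1, h2, h3, h4, fun j X => ?_, fun j X => ?_, fun j hj h7 h8 => ?_⟩
    · by_cases hj : j = i
      · subst hj
        rw [add_mul, mul_add, h1, h2]
      · refine (h6 (α j X + β j X) (fun Y => ?_) (fun Y => ?_) (hT j X)).1
        · rw [add_mul, mul_add, h.aa j i hj, h.ab i j]
        · rw [add_mul, mul_add, h.ab j i, h.bb j i hj]
    · by_cases hj : j = i
      · subst hj
        rw [add_mul, mul_add, h3, h4]
      · refine (h6 (α j X + β j X) (fun Y => ?_) (fun Y => ?_) (hT j X)).2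
        · rw [add_mul, mul_add, h.aa j i hj, h.ab i j]
        · rw [add_mul, mul_add, h.ab j i, h.bb j i hj]
    · have e1 : ∀ X, α j X * A = A * α j X ∧ α j X * B = B * α j X := fun X =>
        h6 _ (fun Y => h.aa j i hj X Y) (fun Y => h.ab j i X Y) (h7 X)
      have e2 : ∀ X, β j X * A = A * β j X ∧ β j X * B = B * β j X := fun X =>
        h6 _ (fun Y => (h.ab i j Y X).symm) (fun Y => h.bb j i hj X Y) (h8 X)
      exact ⟨fun X => (e1 X).1, fun X => (e2 X).1, fun X => (e1 X).2, fun X => (e2 X).2⟩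
  obtain ⟨A, B, e, a1, a2, b1, b2, dA, dB, -⟩ := step 0 T hT
  obtain ⟨A0, A1, eA, a01, a02, a11, a12, dA0, dA1, cA⟩ := step 1 A dA
  obtain ⟨B0, B1, eB, b01, b02, b11, b12, dB0, dB1, cB⟩ := step 1 B dB
  obtain ⟨k1, k2, k3, k4⟩ := cA 0 (by decide) a1 a2
  obtain ⟨l1, l2, l3, l4⟩ := cB 0 (by decide) b1 b2
  -- last step
  have last : ∀ C : R, (∀ X, α 0 X * C = C * α 0 X) → (∀ X, β 0 X * C = C * β 0 X) →
      (∀ X, α 1 X * C = C * α 1 X) → (∀ X, β 1 X * C = C * β 1 X) →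
      (∀ j X, (α j X + β j X) * C = C * (α j X + β j X)) →
      ∃ c d : ℂ, C = c • 1 + d • sf α β 2 := by
    intro C h1 h2 h3 h4 h5
    obtain ⟨C0, C1, eC, c1, c2, c3, c4, -, -, cC⟩ := step 2 C h5
    obtain ⟨m1, m2, m3, m4⟩ := cC 0 (by decide) h1 h2
    obtain ⟨n1, n2, n3, n4⟩ := cC 1 (by decide) h3 h4
    obtain ⟨c, hc⟩ := h.sc C0 (fun i => by fin_cases i; exacts [m1, n1, c1])
      (fun i => by fin_cases i; exacts [m2, n2, c2])
    obtain ⟨d, hd⟩ := h.sc C1 (fun i => by fin_cases i; exacts [m3, n3, c3])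
      (fun i => by fin_cases i; exacts [m4, n4, c4])
    exact ⟨c, d, by rw [eC, hc, hd, smul_mul_assoc, one_mul]⟩
  obtain ⟨c0, c1, hA0⟩ := last A0 k1 k2 a01 a02 dA0
  obtain ⟨c2, c3, hA1⟩ := last A1 k3 k4 a11 a12 dA1
  obtain ⟨c4, c5, hB0⟩ := last B0 l1 l2 b01 b02 dB0
  obtain ⟨c6, c7, hB1⟩ := last B1 l3 l4 b11 b12 dB1
  refine ⟨![c0, c4, c2, c1, c6, c5, c3, c7], ?_⟩
  have e01 := h.ss_comm 0 1
  have e02 := h.ss_comm 0 2
  have e12 := h.ss_comm 1 2
  rw [e, eA, eB, hA0, hA1, hB0, hB1]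
  have f1 : sf α β 2 * sf α β 1 * sf α β 0 = sf α β 0 * sf α β 1 * sf α β 2 := by
    rw [← e12, mul_assoc, ← e02, ← mul_assoc, ← e01]
  have f4 : sf α β 1 * (sf α β 0 * sf α β 2) = sf α β 0 * (sf α β 1 * sf α β 2) := by
    rw [← mul_assoc, ← e01, mul_assoc]
  simp only [add_mul, smul_mul_assoc, one_mul, mul_assoc, ← e01, ← e02, ← e12, f4]
  change _ = c0 • 1 + c4 • _ + c2 • _ + c1 • _ + c6 • _ + c5 • _ + c3 • _ + c7 • _
  abel

/-- The basis of the antisymmetric part. -/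
theorem anti {T : R} (hT : ∀ i X, (α i X + β i X) * T = T * (α i X + β i X)) (hP : T * P = -T) :
    ∃ (a : ℂ) (b : Fin 3 → ℂ), T = (a • 1 + ∑ i, b i • sf α β i) * (1 - P) := by
  obtain ⟨c, hc⟩ := h.three hT
  have h1 : (2 : ℂ) • T = T * (1 - P) := by
    rw [mul_sub, mul_one, hP, two_smul]
    abel
  have h2 : T = (2 : ℂ)⁻¹ • (T * (1 - P)) := by
    rw [← h1, smul_smul, inv_mul_cancel₀ two_ne_zero, one_smul]
  have g : ∀ {i j k : Fin 3}, i ≠ j → i ≠ k → j ≠ k →
      sf α β i * sf α β j * (1 - P) = -(sf α β k * (1 - P)) := by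
    intro i j k hij hik hjk
    have e1 : sf α β i * sf α β j * P = sf α β k := by
      rw [h.P_eq' (Ne.symm hij) hjk hik]
      have e2 : sf α β i * sf α β j * (sf α β j * sf α β i * sf α β k) =
          sf α β i * (sf α β j * sf α β j) * sf α β i * sf α β k := by
        simp only [mul_assoc]
      rw [e2, h.sq, mul_one, h.sq, one_mul]
    have e3 : sf α β k * P = sf α β i * sf α β j := by
      rw [h.P_eq' (Ne.symm hik) (Ne.symm hjk) hij, ← mul_assoc, ← mul_assoc, h.sq, one_mul]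
    rw [mul_sub, mul_sub, e1, e3, mul_one, mul_one]
    abel
  have hPP : P * (1 - P) = -(1 - P) := by
    rw [mul_sub, mul_one, h.PP]
    abel
  have g01 := g (i := 0) (j := 1) (k := 2) (by decide) (by decide) (by decide)
  have g02 := g (i := 0) (j := 2) (k := 1) (by decide) (by decide) (by decide)
  have g12 := g (i := 1) (j := 2) (k := 0) (by decide) (by decide) (by decide)
  refine ⟨(2 : ℂ)⁻¹ * (c 0 - c 7), ![(2 : ℂ)⁻¹ * (c 1 - c 6), (2 : ℂ)⁻¹ * (c 2 - c 5),
    (2 : ℂ)⁻¹ * (c 3 - c 4)], ?_⟩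
  rw [h2, hc, Fin.sum_univ_three]
  have hP' : sf α β 0 * sf α β 1 * sf α β 2 = P := h.P_eq.symm
  simp only [hP', add_mul, smul_mul_assoc, one_mul, g01, g02, g12, hPP]
  change _ = ((2 : ℂ)⁻¹ * (c 0 - c 7)) • _ + (((2 : ℂ)⁻¹ * (c 1 - c 6)) • _ +
    ((2 : ℂ)⁻¹ * (c 2 - c 5)) • _ + ((2 : ℂ)⁻¹ * (c 3 - c 4)) • _)
  module

/-- The elements `w = 1 - P` and `w i = s i * (1 - P)`. -/
theorem w_w : (1 - P) * (1 - P) = (2 : ℂ) • (1 - P) := by
  rw [mul_sub, mul_one, sub_mul, one_mul, h.PP, two_smul]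
  abel

theorem s_P (i : Fin 3) : sf α β i * P = P * sf α β i := by
  rw [h.P_eq]
  change sf α β i * (sf α β 0 * sf α β 1 * sf α β 2) = sf α β 0 * sf α β 1 * sf α β 2 * sf α β i
  rw [← mul_assoc, ← mul_assoc, h.ss_comm i 0, mul_assoc (sf α β 0), h.ss_comm i 1, ← mul_assoc,
    mul_assoc _ (sf α β i), h.ss_comm i 2, ← mul_assoc]

theorem s_w (i : Fin 3) : sf α β i * (1 - P) = (1 - P) * sf α β i := by
  rw [mul_sub, sub_mul, mul_one, one_mul, h.s_P]

theorem g {i j k : Fin 3} (hij : i ≠ j) (hik : i ≠ k) (hjk : j ≠ k) :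
    sf α β i * sf α β j * (1 - P) = -(sf α β k * (1 - P)) := by
  have e1 : sf α β i * sf α β j * P = sf α β k := by
    rw [h.P_eq' (Ne.symm hij) hjk hik]
    have e2 : sf α β i * sf α β j * (sf α β j * sf α β i * sf α β k) =
        sf α β i * (sf α β j * sf α β j) * sf α β i * sf α β k := by
      simp only [mul_assoc]
    rw [e2, h.sq, mul_one, h.sq, one_mul]
  have e3 : sf α β k * P = sf α β i * sf α β j := by
    rw [h.P_eq' (Ne.symm hik) (Ne.symm hjk) hij, ← mul_assoc, ← mul_assoc, h.sq, one_mul]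
  rw [mul_sub, mul_sub, e1, e3, mul_one, mul_one]
  abel

theorem wi_w (i : Fin 3) : sf α β i * (1 - P) * (1 - P) = (2 : ℂ) • (sf α β i * (1 - P)) := by
  rw [mul_assoc, h.w_w, mul_smul_comm]

theorem w_wi (i : Fin 3) : (1 - P) * (sf α β i * (1 - P)) = (2 : ℂ) • (sf α β i * (1 - P)) := by
  rw [← mul_assoc, ← h.s_w, h.wi_w]

theorem wi_wi (i : Fin 3) : sf α β i * (1 - P) * (sf α β i * (1 - P)) = (2 : ℂ) • (1 - P) := by
  rw [mul_assoc, h.w_wi, mul_smul_comm, ← mul_assoc, h.sq, one_mul]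

theorem wi_wj {i j k : Fin 3} (hij : i ≠ j) (hik : i ≠ k) (hjk : j ≠ k) :
    sf α β i * (1 - P) * (sf α β j * (1 - P)) = -((2 : ℂ) • (sf α β k * (1 - P))) := by
  rw [mul_assoc, h.w_wi, mul_smul_comm, ← mul_assoc, h.g hij hik hjk, smul_neg]

/-- Multiplicatively closed subspaces which contain a nonconstant element. -/
theorem single (N : Submodule ℂ R) (hmul : ∀ x ∈ N, ∀ y ∈ N, x * y ∈ N) (hw : 1 - P ∈ N)
    (hE : (1 - P) - ∑ i, sf α β i * (1 - P) ∈ N) {a : ℂ} {b : Fin 3 → ℂ}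
    (hT : (a • 1 + ∑ i, b i • sf α β i) * (1 - P) ∈ N) (hb : ¬ (b 0 = b 1 ∧ b 0 = b 2)) :
    ∃ i, sf α β i * (1 - P) ∈ N := by
  obtain ⟨i, j, k, hij, hik, hjk, h1, h2⟩ : ∃ i j k : Fin 3, i ≠ j ∧ i ≠ k ∧ j ≠ k ∧
      b i ≠ b j ∧ b i ≠ b k := by
    by_cases h01 : b 0 = b 1
    · have h02 : b 0 ≠ b 2 := fun h => hb ⟨h01, h⟩
      exact ⟨2, 0, 1, by decide, by decide, by decide, h02.symm, fun h => h02 (h01.trans h.symm)⟩
    · by_cases h02 : b 0 = b 2
      · exact ⟨1, 0, 2, by decide, by decide, by decide, Ne.symm h01, fun h =>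
          h01 (h02.trans h.symm)⟩
      · exact ⟨0, 1, 2, by decide, by decide, by decide, h01, h02⟩
  have hsum : ∀ {M : Type} [AddCommGroup M] (f : Fin 3 → M), ∑ l, f l = f i + f j + f k := by
    intro M _ f
    have hu : (Finset.univ : Finset (Fin 3)) = {i, j, k} := by
      have key : ∀ i j k : Fin 3, i ≠ j → i ≠ k → j ≠ k →
          (Finset.univ : Finset (Fin 3)) = {i, j, k} := by decide
      exact key i j k hij hik hjk
    rw [hu, Finset.sum_insert (by simp [hij, hik]), Finset.sum_insert (by simp [hjk]),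
      Finset.sum_singleton, add_assoc]
  set x := sf α β i * (1 - P) with hx
  set y := sf α β j * (1 - P) with hy
  set z := sf α β k * (1 - P) with hz
  set w := 1 - P with hw'
  have hT' : a • w + (b i • x + b j • y + b k • z) ∈ N := by
    have e1 : (a • 1 + ∑ i, b i • sf α β i) * w = a • w + (b i • x + b j • y + b k • z) := by
      rw [hsum, hx, hy, hz]
      simp only [add_mul, smul_mul_assoc, one_mul]
    rwa [e1] at hT
  have hE' : w - (x + y + z) ∈ N := by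
    have e1 := hsum fun l => sf α β l * w
    rwa [e1] at hE
  -- the products
  have t1 : w * w = (2 : ℂ) • w := h.w_w
  have t2 : x * w = (2 : ℂ) • x := h.wi_w i
  have t3 : y * w = (2 : ℂ) • y := h.wi_w j
  have t4 : z * w = (2 : ℂ) • z := h.wi_w k
  have t5 : w * x = (2 : ℂ) • x := h.w_wi i
  have t6 : w * y = (2 : ℂ) • y := h.w_wi j
  have t7 : w * z = (2 : ℂ) • z := h.w_wi k
  have t8 : x * x = (2 : ℂ) • w := h.wi_wi i
  have t9 : y * y = (2 : ℂ) • w := h.wi_wi j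
  have t10 : z * z = (2 : ℂ) • w := h.wi_wi k
  have t11 : x * y = -((2 : ℂ) • z) := h.wi_wj hij hik hjk
  have t12 : y * x = -((2 : ℂ) • z) := h.wi_wj hij.symm hjk hik
  have t13 : x * z = -((2 : ℂ) • y) := h.wi_wj hik hij hjk.symm
  have t14 : z * x = -((2 : ℂ) • y) := h.wi_wj hik.symm hjk.symm hij
  have t15 : y * z = -((2 : ℂ) • x) := h.wi_wj hjk hij.symm hik.symm
  have t16 : z * y = -((2 : ℂ) • x) := h.wi_wj hjk.symm hik.symm hij.symm
  let T := a • w + (b i • x + b j • y + b k • z)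
  have hc : ∀ c : ℂ, T - c • w ∈ N := fun c => N.sub_mem hT' (N.smul_mem _ hw)
  have hU := hmul _ (hc (a + b i + b j + b k - 2 * b j)) _ (hc (a + b i + b j + b k - 2 * b k))
  have e : (T - (a + b i + b j + b k - 2 * b j) • w) * (T - (a + b i + b j + b k - 2 * b k) • w) =
      (4 * (b i - b j) * (b i - b k)) • (w - x) +
        (4 * b i * (b j + b k)) • (w - (x + y + z)) := by
    have e1 : T - (a + b i + b j + b k - 2 * b j) • w =
        (b j - b i - b k) • w + (b i • x + b j • y + b k • z) := by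
      change a • w + (b i • x + b j • y + b k • z) - _ = _
      module
    have e2 : T - (a + b i + b j + b k - 2 * b k) • w =
        (b k - b i - b j) • w + (b i • x + b j • y + b k • z) := by
      change a • w + (b i • x + b j • y + b k • z) - _ = _
      module
    rw [e1, e2]
    simp only [add_mul, mul_add, smul_mul_assoc, mul_smul_comm, t1, t2, t3, t4, t5, t6, t7, t8, t9,
      t10, t11, t12, t13, t14, t15, t16]
    module
  rw [e] at hU
  have h3 : (4 * (b i - b j) * (b i - b k)) • (w - x) ∈ N := by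
    have h4 := N.sub_mem hU (N.smul_mem (4 * b i * (b j + b k)) hE')
    rwa [add_sub_cancel_right] at h4
  have h4 : w - x ∈ N := by
    have h5 : (4 * (b i - b j) * (b i - b k)) ≠ 0 :=
      mul_ne_zero (mul_ne_zero (by norm_num) (sub_ne_zero.2 h1)) (sub_ne_zero.2 h2)
    exact (N.smul_mem_iff h5).1 h3
  refine ⟨i, ?_⟩
  have h5 := N.sub_mem hw h4
  rwa [sub_sub_cancel] at h5

/-- The invariant vector. -/
theorem E0_of_K {K : R} (hK : ∀ i X, (α i X + β i X) * K = K * (α i X + β i X)) (hKP : K * P = -K)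
    (hs : ∀ i, sf α β i * K = -K) (h0 : K ≠ 0) :
    ∃ c : ℂ, (1 - P) - ∑ i, sf α β i * (1 - P) = c • K := by
  obtain ⟨a, b, hab⟩ := h.anti hK hKP
  have hPK : P * K = -K := by
    rw [h.P_eq]
    change sf α β 0 * sf α β 1 * sf α β 2 * K = -K
    rw [mul_assoc, hs, mul_neg, mul_assoc, hs, mul_neg, neg_neg, hs]
  have hwK : (1 - P) * K = (2 : ℂ) • K := by
    rw [sub_mul, one_mul, hPK, two_smul]
    abel
  have e1 : ((1 - P) - ∑ i, sf α β i * (1 - P)) * K = (8 : ℂ) • K := by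
    rw [sub_mul, Finset.sum_mul, hwK]
    have e2 : ∀ i, sf α β i * (1 - P) * K = -((2 : ℂ) • K) := by
      intro i
      rw [mul_assoc, hwK, mul_smul_comm, hs, smul_neg]
    simp only [e2, Fin.sum_univ_three]
    module
  have e3 : ((1 - P) - ∑ i, sf α β i * (1 - P)) * K = (2 * (a - b 0 - b 1 - b 2)) •
      ((1 - P) - ∑ i, sf α β i * (1 - P)) := by
    conv_lhs => rw [hab]
    have f1 : (a • 1 + ∑ i, b i • sf α β i) * (1 - P) = a • (1 - P) +
        (b 0 • (sf α β 0 * (1 - P)) + b 1 • (sf α β 1 * (1 - P)) + b 2 • (sf α β 2 * (1 - P))) := by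
      rw [Fin.sum_univ_three]
      simp only [add_mul, smul_mul_assoc, one_mul]
    rw [f1, Fin.sum_univ_three]
    simp only [sub_mul, add_mul, mul_add, mul_smul_comm, h.w_w, h.w_wi, h.wi_w, h.wi_wi,
      h.wi_wj (i := 0) (j := 1) (k := 2) (by decide) (by decide) (by decide),
      h.wi_wj (i := 1) (j := 0) (k := 2) (by decide) (by decide) (by decide),
      h.wi_wj (i := 0) (j := 2) (k := 1) (by decide) (by decide) (by decide),
      h.wi_wj (i := 2) (j := 0) (k := 1) (by decide) (by decide) (by decide),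
      h.wi_wj (i := 1) (j := 2) (k := 0) (by decide) (by decide) (by decide),
      h.wi_wj (i := 2) (j := 1) (k := 0) (by decide) (by decide) (by decide)]
    module
  have h1 : (2 * (a - b 0 - b 1 - b 2)) ≠ 0 := by
    intro h2
    rw [e1, h2, zero_smul] at e3
    exact h0 ((smul_eq_zero.1 e3).resolve_left (by norm_num))
  refine ⟨(2 * (a - b 0 - b 1 - b 2))⁻¹ * 8, ?_⟩
  rw [mul_smul, ← e1, e3, smul_smul, inv_mul_cancel₀ h1, one_smul]

end Trip

end

end Pool.Agent.H841.MF
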