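import Pool.Agent.H841.MF.Core
import Pool.Agent.H841.MS.Hall
import Pool.Graph.R_pool_sql_team_seeded_63374d34.N830.HC.D1

/-!
# Classes on the square and their tensors
-/

set_option linter.unusedSectionVars false

namespace Pool.Agent.H841.MF

open Finset Matrix Module Pool.Agent.H841.MS Pool.Agent.W437.HC Pool.Agent.W437.HD
open Pool.Agent.V1168.GH Pool.Agent.TH504.CB Pool.Agent.Y90 Pool.Agent.R915
open Pool.Agent.W548.Odd hiding cv
open Pool.Agent.H204R3.CM (IsHodge)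
open Pool.Agent.N178.HW (prodAV)
open Equiv (Perm)

noncomputable section

section polar

variable {κ : Type} [Fintype κ] [DecidableEq κ] {V W : Type} [AddCommGroup V] [Module ℚ V]
  [AddCommGroup W] [Module ℚ W]

theorem sum_supersets (A : Finset κ) : ∑ S : Finset κ, (if A ⊆ S then (-1 : ℚ) ^ (Sᶜ).card else 0) =
    if A = univ then 1 else 0 := by
  rw [← Finset.sum_filter]
  have h1 : ∑ S ∈ univ.filter (fun S => A ⊆ S), (-1 : ℚ) ^ (Sᶜ).card =
      ∑ T ∈ (Aᶜ).powerset, (-1 : ℚ) ^ T.card := by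
    refine Finset.sum_nbij' (fun S => Sᶜ) (fun T => Tᶜ) (fun S hS => ?_) (fun T hT => ?_)
      (fun S _ => compl_compl S) (fun T _ => compl_compl T) (fun S _ => rfl)
    · rw [Finset.mem_powerset]
      exact Finset.compl_subset_compl.2 (Finset.mem_filter.1 hS).2
    · rw [Finset.mem_filter]
      refine ⟨Finset.mem_univ _, ?_⟩
      have h2 := Finset.compl_subset_compl.2 (Finset.mem_powerset.1 hT)
      rwa [compl_compl] at h2
  rw [h1]
  have h2 := Finset.sum_powerset_neg_one_pow_card (x := Aᶜ)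
  have h3 : (∑ T ∈ (Aᶜ).powerset, (-1 : ℚ) ^ T.card) =
      ((∑ T ∈ (Aᶜ).powerset, (-1 : ℤ) ^ T.card : ℤ) : ℚ) := by push_cast; rfl
  rw [h3, h2]
  by_cases hA : A = univ
  · subst hA
    simp
  · have h4 : Aᶜ ≠ ∅ := fun h => hA (by rw [← compl_compl A, h]; simp)
    rw [if_neg h4, if_neg hA]
    rfl

/-- Polarization. -/
theorem polar (f : V [⋀^κ]→ₗ[ℚ] ℚ) (w : κ → W →ₗ[ℚ] V) (v : κ → W) :
    ∑ σ : Perm κ, ((Perm.sign σ : ℤ) : ℚ) * f (fun k => w k (v (σ k))) =
      ∑ S : Finset κ, (-1 : ℚ) ^ (Sᶜ).card * f (fun m => (∑ k ∈ S, w k) (v m)) := by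
  have h1 : ∀ S : Finset κ, f (fun m => (∑ k ∈ S, w k) (v m)) =
      ∑ r : κ → κ, if univ.image r ⊆ S then f (fun m => w (r m) (v m)) else 0 := by
    intro S
    have e1 : (fun m => (∑ k ∈ S, w k) (v m)) = fun m => ∑ k ∈ S, w k (v m) := by
      funext m
      rw [LinearMap.sum_apply]
    rw [e1]
    have e2 := f.toMultilinearMap.map_sum_finset (fun m k => w k (v m)) fun _ => S
    change f (fun m => ∑ k ∈ S, w k (v m)) = _ at e2
    rw [e2, ← Finset.sum_filter]
    refine Finset.sum_congr ?_ fun r _ => rfl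
    ext r
    rw [Fintype.mem_piFinset, Finset.mem_filter, Finset.image_subset_iff]
    simp
  have h2 : ∑ S : Finset κ, (-1 : ℚ) ^ (Sᶜ).card * f (fun m => (∑ k ∈ S, w k) (v m)) =
      ∑ r : κ → κ, if univ.image r = univ then f (fun m => w (r m) (v m)) else 0 := by
    simp only [h1, Finset.mul_sum]
    rw [Finset.sum_comm]
    refine Finset.sum_congr rfl fun r _ => ?_
    have e3 : ∀ S : Finset κ, (-1 : ℚ) ^ (Sᶜ).card *
        (if univ.image r ⊆ S then f (fun m => w (r m) (v m)) else 0) =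
        (if univ.image r ⊆ S then (-1 : ℚ) ^ (Sᶜ).card else 0) * f (fun m => w (r m) (v m)) := by
      intro S
      split_ifs <;> ring
    simp only [e3, ← Finset.sum_mul]
    rw [sum_supersets]
    split_ifs <;> ring
  rw [h2, ← Finset.sum_filter]
  have h3 : ∑ r ∈ univ.filter (fun r : κ → κ => univ.image r = univ), f (fun m => w (r m) (v m)) =
      ∑ σ : Perm κ, f (fun m => w (σ m) (v m)) := by
    symm
    refine Finset.sum_bij (fun σ _ => (σ : κ → κ)) (fun σ _ => ?_) (fun σ _ τ _ h => ?_)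
      (fun r hr => ?_) (fun σ _ => rfl)
    · rw [Finset.mem_filter]
      exact ⟨Finset.mem_univ _, Finset.image_univ_of_surjective σ.surjective⟩
    · exact Equiv.ext fun x => congrFun h x
    · have hs : Function.Surjective r := by
        intro y
        have h4 : y ∈ univ.image r := by
          rw [(Finset.mem_filter.1 hr).2]
          exact Finset.mem_univ _
        obtain ⟨x, -, hx⟩ := Finset.mem_image.1 h4
        exact ⟨x, hx⟩
      exact ⟨Equiv.ofBijective r (Finite.injective_iff_surjective.2 hs |>.bijective_of_finite),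
        Finset.mem_univ _, rfl⟩
  rw [h3, ← Equiv.sum_comp (Equiv.inv (Perm κ))]
  refine Finset.sum_congr rfl fun σ _ => ?_
  have e4 := f.map_perm (fun k => w k (v ((σ⁻¹ : Perm κ) k))) σ
  have e5 : (fun k => w k (v ((σ⁻¹ : Perm κ) k))) ∘ (σ : κ → κ) = fun m => w (σ m) (v m) := by
    funext m
    simp
  rw [Equiv.inv_apply, ← e5, e4, Units.smul_def, zsmul_eq_mul, Perm.sign_inv]

end polar

theorem hom_sum {X Y : AV} {κ : Type} (S : Finset κ) {w : κ → X.H →ₗ[ℚ] Y.H}
    (hw : ∀ k, IsHom X Y (w k)) : IsHom X Y (∑ k ∈ S, w k) := by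
  choose Ψ hΨ using hw
  refine ⟨∑ k ∈ S, Ψ k, fun v => ?_⟩
  rw [LinearMap.sum_apply, LinearMap.sum_apply, map_sum]
  exact Finset.sum_congr rfl fun k _ => hΨ k v

variable {𝒜 : Sys}

/-- The polarizations of a class of the system belong to the system. -/
theorem alt_mem {X Y : AV} {κ : Type} [Fintype κ] [DecidableEq κ] {f : Y.H [⋀^κ]→ₗ[ℚ] ℚ}
    (hf : 𝒜.A Y κ f) {w : κ → X.H →ₗ[ℚ] Y.H} (hw : ∀ k, IsHom X Y (w k)) :
    (fun v : κ → X.H => ∑ σ : Perm κ, ((Perm.sign σ : ℤ) : ℂ) *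
      ((f (fun k => w k (v (σ k))) : ℚ) : ℂ)) ∈ RA 𝒜 X κ := by
  have h1 : (fun v : κ → X.H => ∑ σ : Perm κ, ((Perm.sign σ : ℤ) : ℂ) *
      ((f (fun k => w k (v (σ k))) : ℚ) : ℂ)) = ∑ S : Finset κ, (-1 : ℂ) ^ (Sᶜ).card •
        fun v : κ → X.H => (((f.compLinearMap (∑ k ∈ S, w k)) v : ℚ) : ℂ) := by
    funext v
    have h2 := congrArg (Rat.cast : ℚ → ℂ) (polar f w v)
    rw [Rat.cast_sum, Rat.cast_sum] at h2
    rw [Finset.sum_apply]
    refine Eq.trans (Finset.sum_congr rfl fun σ _ => ?_) (h2.trans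
      (Finset.sum_congr rfl fun S _ => ?_))
    · rw [Rat.cast_mul, Rat.cast_intCast]
    · rw [Rat.cast_mul, Rat.cast_pow, Rat.cast_neg, Rat.cast_one]
      rfl
  rw [h1]
  exact Submodule.sum_mem _ fun S _ => Submodule.smul_mem _ _
    (RA_of (𝒜.pull _ (hom_sum S hw) _ hf))

/-- The classes with complex coefficients are stable under conjugation. -/
theorem RA_conj {X : AV} {κ : Type} {F : (κ → X.H) → ℂ} (hF : F ∈ RA 𝒜 X κ) (σ : ℂ ≃+* ℂ) :
    (fun v => σ (F v)) ∈ RA 𝒜 X κ := by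
  unfold RA at hF
  induction hF using Submodule.span_induction with
  | mem F hF =>
    obtain ⟨r, hr, rfl⟩ := hF
    have e1 : (fun v => σ ((r v : ℚ) : ℂ)) = fun v => ((r v : ℚ) : ℂ) := by
      funext v
      exact map_ratCast σ _
    rw [e1]
    exact RA_of hr
  | zero =>
    have e1 : (fun v : κ → X.H => σ ((0 : (κ → X.H) → ℂ) v)) = 0 := by
      funext v
      exact map_zero σ
    rw [e1]
    exact Submodule.zero_mem _
  | add F G _ _ hF hG =>
    have e1 : (fun v : κ → X.H => σ ((F + G) v)) = (fun v => σ (F v)) + fun v => σ (G v) := by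
      funext v
      exact map_add σ _ _
    rw [e1]
    exact Submodule.add_mem _ hF hG
  | smul a F _ hF =>
    have e1 : (fun v : κ → X.H => σ ((a • F) v)) = σ a • fun v => σ (F v) := by
      funext v
      exact map_mul σ _ _
    rw [e1]
    exact Submodule.smul_mem _ _ hF

variable {g : ℕ} {Z : Matrix (Fin g) (Fin g) ℂ} {h : PM Z}

/-- The tensors are stable under conjugation. -/
theorem TA_conj {κ : Type} {u : Tn κ (Fin g ⊕ Fin g)} (hu : u ∈ TA 𝒜 h κ) (σ : ℂ ≃+* ℂ) :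
    (fun x => σ (u x)) ∈ TA 𝒜 h κ := by
  intro i1 i2 X R hR
  have h1 := RA_conj (hu i1 i2 X R hR) σ
  convert h1 using 1
  funext v
  unfold gA
  rw [map_sum]
  refine Finset.sum_congr rfl fun τ _ => ?_
  rw [map_mul, map_intCast]
  congr 1
  unfold evalF
  rw [map_sum]
  refine Finset.sum_congr rfl fun I _ => ?_
  rw [map_mul, map_prod]
  congr 1
  refine Finset.prod_congr rfl fun k _ => ?_
  exact (map_ratCast σ _).symm

/-- The inclusions in the square. -/
def incl (X : AV) : Fin 2 → X.H →ₗ[ℚ] (prodAV X X).H :=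
  ![LinearMap.inl ℚ X.H X.H, LinearMap.inr ℚ X.H X.H]

theorem incl_hom (X : AV) (q : Fin 2) : IsHom X (prodAV X X) (incl X q) := by
  fin_cases q
  · exact Pool.Agent.N178.HW.hom_inl X X
  · exact Pool.Agent.N178.HW.hom_inr X X

/-- The components of a class on the square. -/
def cmp {κ : Type} (f : (prodAV (AVZ h) (AVZ h)).H [⋀^κ]→ₗ[ℚ] ℚ) (c : κ → Fin 2) :
    MultilinearMap ℚ (fun _ : κ => Fin g ⊕ Fin g → ℚ) ℚ :=
  f.toMultilinearMap.compLinearMap fun m => incl (AVZ h) (c m)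

theorem cmp_apply {κ : Type} (f : (prodAV (AVZ h) (AVZ h)).H [⋀^κ]→ₗ[ℚ] ℚ) (c : κ → Fin 2)
    (v : κ → Fin g ⊕ Fin g → ℚ) : cmp f c v = f fun m => incl (AVZ h) (c m) (v m) := rfl

section comp

variable {κ : Type} [Fintype κ] [DecidableEq κ]

/-- The components of a Hodge class are invariant. -/
theorem cmp_Ivt {f : (prodAV (AVZ h) (AVZ h)).H [⋀^κ]→ₗ[ℚ] ℚ}
    (hf : IsHodge (prodAV (AVZ h) (AVZ h)).per f) (c : κ → Fin 2) :
    cst ℂ (CF (cmp f c)) ∈ Ivt (DZ Z) κ := by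
  obtain ⟨ψ, hψ1, hψ2⟩ := hf
  choose Ψ hΨ using incl_hom (AVZ h)
  have h1 : IsH (DZ Z) (CF (cmp f c)) := by
    refine isH_of_rot h.cht (cmp f c) (ψ.compLinearMap fun m => (Ψ (c m)).restrictScalars ℝ)
      (fun v => ?_) fun z hz u => ?_
    · rw [MultilinearMap.compLinearMap_apply, cmp_apply, ← hψ1]
      congr 1
      funext m
      exact hΨ (c m) (v m)
    · rw [MultilinearMap.compLinearMap_apply, MultilinearMap.compLinearMap_apply]
      refine Eq.trans ?_ (hψ2 z hz _)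
      congr 1
      funext m
      exact map_smul (Ψ (c m)) z (u m)
  intro X hX
  have h2 : LA {DZ Z} ≤ lieM (DZ Z) ℂ := LA_le_lieM fun d hd => by
    rw [Set.mem_singleton_iff.1 hd]
    exact D_mem _
  exact lieM_kills _ (h2 hX) h1

end comp

/-- The components of a class of the system. -/
theorem cmp_TA {κ : Type} [i0 : Fintype κ] [j0 : DecidableEq κ] {f : (prodAV (AVZ h) (AVZ h)).H [⋀^κ]→ₗ[ℚ] ℚ}
    (hf : 𝒜.A (prodAV (AVZ h) (AVZ h)) κ f) (c : κ → Fin 2) :
    cst ℂ (CF (cmp f c)) ∈ TA 𝒜 h κ := by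
  intro i1 i2 X R hR
  obtain rfl : i0 = i1 := Subsingleton.elim _ _
  obtain rfl : j0 = i2 := Subsingleton.elim _ _
  have h1 := alt_mem (X := X) hf (w := fun k => (incl (AVZ h) (c k)).comp (R k)) fun k => by
    obtain ⟨Ψ, hΨ⟩ := incl_hom (AVZ h) (c k)
    obtain ⟨Φ, hΦ⟩ := hR k
    refine ⟨Ψ.comp Φ, fun v => ?_⟩
    change Ψ (Φ (X.per v)) = _
    rw [hΦ, hΨ]
    rfl
  convert h1 using 1
  funext v
  unfold gA
  refine Finset.sum_congr rfl fun σ _ => ?_
  congr 1
  have e2 : (f fun k => ((incl (AVZ h) (c k)).comp (R k)) (v (σ k))) =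
      cmp f c (fun k => R k (v (σ k))) := rfl
  rw [e2, CF_eval, evalF_castK]
  rfl


end

end Pool.Agent.H841.MF
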