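import Pool.Agent.H841.MF.Ten

/-!
# One exceptional tensor generates all invariants of degree four
-/

set_option linter.unusedSectionVars false

namespace Pool.Agent.H841.MF

open Finset Matrix Pool.Agent.H841.MS Pool.Agent.W548.Odd Pool.Agent.W437.HC
open scoped Kronecker

noncomputable section

variable {B : Type} [Fintype B] [DecidableEq B] {r : Fin 3 → (M2 →ₗ[ℂ] Matrix B B ℂ)}
  {D Om : Matrix B B ℂ}

/-- The assumptions. -/
structure Dat (r : Fin 3 → (M2 →ₗ[ℂ] Matrix B B ℂ)) (D Om : Matrix B B ℂ) : Prop where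
  three : Three r
  inv : D * D = 1
  lie : LA {D} = Submodule.span ℂ {M | ∃ i X, Matrix.trace X = 0 ∧ M = r i X}
  sp : ∀ X ∈ LA {D}, Xᵀ * Om + Om * X = 0
  om : Om * Om = -1
  omT : Omᵀ = -Om
  real : ∀ σ : ℂ ≃+* ℂ, Om.map σ = Om

/-- The splitting of a two by two matrix. -/
theorem splitX (X : M2) : ∃ (X₀ : M2) (c : ℂ), X₀.trace = 0 ∧ X = X₀ + c • 1 := by
  refine ⟨X - ((2 : ℂ)⁻¹ * X.trace) • 1, (2 : ℂ)⁻¹ * X.trace, ?_, by abel⟩
  rw [Matrix.trace_sub, Matrix.trace_smul, Matrix.trace_one, smul_eq_mul, Fintype.card_fin]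
  push_cast
  ring

namespace Dat

variable (h : Dat r D Om)
include h

theorem r_mem (i : Fin 3) {X : M2} (hX : X.trace = 0) : r i X ∈ LA {D} := by
  rw [h.lie]
  exact Submodule.subset_span ⟨i, X, hX, rfl⟩

theorem omY {Y : Matrix B B ℂ} (hY : Y ∈ LA {D}) : Om * Yᵀ = -(Y * Om) := by
  have h1 := h.sp Y hY
  have h2 : Om * (Yᵀ * Om + Om * Y) * Om = 0 := by rw [h1, Matrix.mul_zero, Matrix.zero_mul]
  have h3 : Om * (Yᵀ * Om + Om * Y) * Om = Om * Yᵀ * (Om * Om) + (Om * Om) * Y * Om := by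
    noncomm_ring
  rw [h3, h.om, Matrix.mul_neg, Matrix.mul_one, Matrix.neg_mul, Matrix.neg_mul, Matrix.one_mul] at h2
  have h4 := neg_eq_zero.1 (by rw [neg_add] ; exact h2 : -(Om * Yᵀ + Y * Om) = 0)
  exact eq_neg_of_add_eq_zero_left h4

theorem comm_of {M : Matrix (B × B) (B × B) ℂ}
    (hM : ∀ Y ∈ LA {D}, (Y ⊗ₖ (1 : Matrix B B ℂ) + (1 : Matrix B B ℂ) ⊗ₖ Y) * M =
      M * (Y ⊗ₖ (1 : Matrix B B ℂ) + (1 : Matrix B B ℂ) ⊗ₖ Y)) (i : Fin 3) (X : M2) :
    (h.three.al i X + h.three.be i X) * M = M * (h.three.al i X + h.three.be i X) := by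
  obtain ⟨X₀, c, hX₀, rfl⟩ := splitX X
  have e1 := hM _ (h.r_mem i hX₀)
  have e2 : h.three.al i (X₀ + c • 1) + h.three.be i (X₀ + c • 1) =
      (r i X₀ ⊗ₖ (1 : Matrix B B ℂ) + (1 : Matrix B B ℂ) ⊗ₖ r i X₀) + (2 * c) • 1 := by
    rw [map_add, map_add, map_smul, map_smul, map_one, map_one, Three.al_apply, Three.be_apply]
    module
  rw [e2, add_mul, mul_add, e1, smul_mul_assoc, mul_smul_comm, one_mul, mul_one]

theorem comm_op {t : Tn (Fin 2 ⊕ Fin 2) B} (ht : t ∈ Ivt D (Fin 2 ⊕ Fin 2)) (i : Fin 3) (X : M2) :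
    (h.three.al i X + h.three.be i X) * op Om t = op Om t * (h.three.al i X + h.three.be i X) := by
  refine h.comm_of (fun Y hY => ?_) i X
  have e1 := mat_act Y t
  have e0 : mat (act Y t) = 0 := by
    rw [mem_Ivt.1 ht Y hY]
    rfl
  rw [e0] at e1
  have e2 : mat t * (Y ⊗ₖ (1 : Matrix B B ℂ) + (1 : Matrix B B ℂ) ⊗ₖ Y) =
      -((Yᵀ ⊗ₖ (1 : Matrix B B ℂ) + (1 : Matrix B B ℂ) ⊗ₖ Yᵀ) * mat t) :=
    eq_neg_of_add_eq_zero_right e1.symm
  have e3 : (Om ⊗ₖ Om) * (Yᵀ ⊗ₖ (1 : Matrix B B ℂ) + (1 : Matrix B B ℂ) ⊗ₖ Yᵀ) =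
      -((Y ⊗ₖ (1 : Matrix B B ℂ) + (1 : Matrix B B ℂ) ⊗ₖ Y) * (Om ⊗ₖ Om)) := by
    rw [Matrix.mul_add, Matrix.add_mul, ← mul_kronecker_mul, ← mul_kronecker_mul,
      ← mul_kronecker_mul, ← mul_kronecker_mul, h.omY hY, Matrix.mul_one, Matrix.one_mul]
    have f1 : (-(Y * Om)) ⊗ₖ Om = -((Y * Om) ⊗ₖ Om) := by
      ext ⟨a, b⟩ ⟨c, d⟩
      change -(Y * Om) a c * Om b d = -((Y * Om) a c * Om b d)
      ring
    have f2 : Om ⊗ₖ (-(Y * Om)) = -(Om ⊗ₖ (Y * Om)) := by
      ext ⟨a, b⟩ ⟨c, d⟩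
      change Om a c * -(Y * Om) b d = -(Om a c * (Y * Om) b d)
      ring
    rw [f1, f2, neg_add]
  unfold op
  rw [Matrix.mul_assoc (Om ⊗ₖ Om), e2, Matrix.mul_neg, ← Matrix.mul_assoc (Om ⊗ₖ Om), e3,
    Matrix.neg_mul, neg_neg, Matrix.mul_assoc]

theorem om_r (i : Fin 3) (X : M2) : Om * (r i X)ᵀ = r i (ad X) * Om := by
  obtain ⟨X₀, c, hX₀, rfl⟩ := splitX X
  have e1 : ad (X₀ + c • 1) = c • 1 - X₀ := by
    unfold ad
    rw [Matrix.trace_add, Matrix.trace_smul, Matrix.trace_one, hX₀, smul_eq_mul]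
    simp only [Fintype.card_fin, Nat.cast_ofNat, zero_add]
    module
  rw [e1, map_add, map_smul, map_sub, map_smul, h.three.one, Matrix.transpose_add,
    Matrix.transpose_smul, Matrix.transpose_one, Matrix.mul_add, h.omY (h.r_mem i hX₀),
    Matrix.mul_smul, Matrix.mul_one, Matrix.sub_mul, Matrix.smul_mul, Matrix.one_mul]
  abel

theorem s_K (i : Fin 3) : ss (h.three.al i) (h.three.be i) * KM Om = -KM Om := by
  let G : M2 → M2 → Matrix (B × B) (B × B) ℂ := fun X Y x y =>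
    (r i X * Om * (r i Y)ᵀ) x.1 x.2 * Om y.1 y.2
  have e1 : ∀ X Y : M2, (h.three.al i X * h.three.be i Y) * KM Om = G X Y := by
    intro X Y
    rw [Three.al_apply, Three.be_apply, ← mul_kronecker_mul, Matrix.mul_one, Matrix.one_mul]
    ext ⟨a, b⟩ ⟨c, d⟩
    change _ = (r i X * Om * (r i Y)ᵀ) a b * Om c d
    rw [Matrix.mul_apply, Fintype.sum_prod_type, Matrix.mul_apply, Finset.sum_mul, Finset.sum_comm]
    refine Finset.sum_congr rfl fun q _ => ?_
    rw [Matrix.mul_apply, Finset.sum_mul, Finset.sum_mul]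
    refine Finset.sum_congr rfl fun p _ => ?_
    change r i X a p * r i Y b q * (Om p q * Om c d) = r i X a p * Om p q * r i Y b q * Om c d
    ring
  have e2 : ∑ a, ∑ b, r i (mu a b) * Om * (r i (mu b a))ᵀ = -Om := by
    have f1 : ∀ a b : Fin 2, r i (mu a b) * Om * (r i (mu b a))ᵀ =
        r i (mu a b * ad (mu b a)) * Om := by
      intro a b
      rw [Matrix.mul_assoc, h.om_r, ← Matrix.mul_assoc, h.three.mul]
    have f2 : ∑ a : Fin 2, ∑ b : Fin 2, mu a b * ad (mu b a) = -1 := by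
      ext x y
      simp only [ad_mu, Fin.sum_univ_two, Matrix.add_apply, Matrix.mul_apply, Matrix.sub_apply,
        Matrix.smul_apply, Matrix.single_apply, Matrix.one_apply, Matrix.neg_apply]
      fin_cases x <;> fin_cases y <;> simp
    simp only [f1, ← Finset.sum_mul, ← map_sum, f2]
    rw [map_neg, h.three.one, Matrix.neg_mul, Matrix.one_mul]
  unfold ss
  simp only [Finset.sum_mul, e1]
  ext ⟨a, b⟩ ⟨c, d⟩
  have e3 := congrFun (congrFun e2 a) b
  rw [Matrix.neg_apply]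
  change _ = -(Om a b * Om c d)
  rw [Matrix.neg_apply, Matrix.sum_apply] at e3
  simp only [Matrix.sum_apply] at e3 ⊢
  change ∑ p : Fin 2, ∑ q : Fin 2, (r i (mu p q) * Om * (r i (mu q p))ᵀ) a b * Om c d = _
  have e4 : ∑ p : Fin 2, ∑ q : Fin 2, (r i (mu p q) * Om * (r i (mu q p))ᵀ) a b * Om c d =
      (∑ p : Fin 2, ∑ q : Fin 2, (r i (mu p q) * Om * (r i (mu q p))ᵀ) a b) * Om c d := by
    rw [Finset.sum_mul]
    exact Finset.sum_congr rfl fun p _ => (Finset.sum_mul _ _ _).symm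
  rw [← neg_mul, ← e3, ← e4]

theorem comm_K (i : Fin 3) (X : M2) :
    (h.three.al i X + h.three.be i X) * KM Om = KM Om * (h.three.al i X + h.three.be i X) := by
  refine h.comm_of (fun Y hY => ?_) i X
  have e1 : (Y ⊗ₖ (1 : Matrix B B ℂ) + (1 : Matrix B B ℂ) ⊗ₖ Y) * KM Om = 0 := by
    ext ⟨a, b⟩ ⟨c, d⟩
    have f1 := congrFun (congrFun (h.omY hY) a) b
    rw [Matrix.neg_apply, Matrix.mul_apply, Matrix.mul_apply] at f1
    rw [Matrix.add_mul, Matrix.add_apply, Matrix.mul_apply, Matrix.mul_apply,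
      Fintype.sum_prod_type, Fintype.sum_prod_type, Matrix.zero_apply]
    have f2 : ∀ p : B, ∑ q : B, (Y ⊗ₖ (1 : Matrix B B ℂ)) (a, b) (p, q) * KM Om (p, q) (c, d) =
        Y a p * Om p b * Om c d := by
      intro p
      rw [Finset.sum_eq_single b]
      · change Y a p * (1 : Matrix B B ℂ) b b * (Om p b * Om c d) = _
        rw [Matrix.one_apply_eq]
        ring
      · intro q _ hq
        change Y a p * (1 : Matrix B B ℂ) b q * (Om p q * Om c d) = _
        rw [Matrix.one_apply_ne hq.symm, mul_zero, zero_mul]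
      · exact fun hb => absurd (Finset.mem_univ _) hb
    have f3 : ∑ p : B, ∑ q : B, ((1 : Matrix B B ℂ) ⊗ₖ Y) (a, b) (p, q) * KM Om (p, q) (c, d) =
        ∑ q, Om a q * Yᵀ q b * Om c d := by
      rw [Finset.sum_eq_single a]
      · refine Finset.sum_congr rfl fun q _ => ?_
        change (1 : Matrix B B ℂ) a a * Y b q * (Om a q * Om c d) = Om a q * Y b q * Om c d
        rw [Matrix.one_apply_eq]
        ring
      · intro p _ hp
        refine Finset.sum_eq_zero fun q _ => ?_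
        change (1 : Matrix B B ℂ) a p * Y b q * (Om p q * Om c d) = _
        rw [Matrix.one_apply_ne hp.symm, zero_mul, zero_mul]
      · exact fun hb => absurd (Finset.mem_univ _) hb
    rw [Finset.sum_congr rfl fun p _ => f2 p, f3, ← Finset.sum_mul, ← Finset.sum_mul, f1]
    ring
  have e2 : KM Om * (Y ⊗ₖ (1 : Matrix B B ℂ) + (1 : Matrix B B ℂ) ⊗ₖ Y) = 0 := by
    ext ⟨a, b⟩ ⟨c, d⟩
    have f1 := congrFun (congrFun (h.sp Y hY) c) d
    rw [Matrix.add_apply, Matrix.mul_apply, Matrix.mul_apply, Matrix.zero_apply] at f1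
    rw [Matrix.mul_add, Matrix.add_apply, Matrix.mul_apply, Matrix.mul_apply,
      Fintype.sum_prod_type, Fintype.sum_prod_type, Matrix.zero_apply]
    have f2 : ∀ p : B, ∑ q : B, KM Om (a, b) (p, q) * (Y ⊗ₖ (1 : Matrix B B ℂ)) (p, q) (c, d) =
        Om a b * (Yᵀ c p * Om p d) := by
      intro p
      rw [Finset.sum_eq_single d]
      · change Om a b * Om p d * (Y p c * (1 : Matrix B B ℂ) d d) = Om a b * (Y p c * Om p d)
        rw [Matrix.one_apply_eq]
        ring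
      · intro q _ hq
        change Om a b * Om p q * (Y p c * (1 : Matrix B B ℂ) q d) = _
        rw [Matrix.one_apply_ne hq, mul_zero, mul_zero]
      · exact fun hb => absurd (Finset.mem_univ _) hb
    have f3 : ∑ p : B, ∑ q : B, KM Om (a, b) (p, q) * ((1 : Matrix B B ℂ) ⊗ₖ Y) (p, q) (c, d) =
        ∑ q, Om a b * (Om c q * Y q d) := by
      rw [Finset.sum_eq_single c]
      · refine Finset.sum_congr rfl fun q _ => ?_
        change Om a b * Om c q * ((1 : Matrix B B ℂ) c c * Y q d) = _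
        rw [Matrix.one_apply_eq]
        ring
      · intro p _ hp
        refine Finset.sum_eq_zero fun q _ => ?_
        change Om a b * Om p q * ((1 : Matrix B B ℂ) p c * Y q d) = _
        rw [Matrix.one_apply_ne hp, zero_mul, mul_zero]
      · exact fun hb => absurd (Finset.mem_univ _) hb
    rw [Finset.sum_congr rfl fun p _ => f2 p, f3, ← Finset.mul_sum, ← Finset.mul_sum, ← mul_add, f1,
      mul_zero]
  rw [e1, e2]

theorem K_sw : KM Om * swM B = -KM Om := by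
  ext ⟨a, b⟩ ⟨c, d⟩
  rw [mul_swM, Matrix.neg_apply]
  change Om a b * Om d c = -(Om a b * Om c d)
  have e1 := congrFun (congrFun h.omT d) c
  rw [Matrix.transpose_apply, Matrix.neg_apply] at e1
  rw [e1]
  ring

theorem K_ne : KM Om ≠ 0 := by
  intro h0
  have : Nonempty B := Fintype.card_pos_iff.1 (by rw [h.three.card]; norm_num)
  have hOm0 : Om = 0 := by
    by_contra hne
    obtain ⟨a, b, hab⟩ : ∃ a b, Om a b ≠ 0 := by
      by_contra hcon
      push Not at hcon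
      exact hne (Matrix.ext fun a b => hcon a b)
    have e1 : Om a b * Om a b = 0 := congrFun (congrFun h0 (a, b)) (a, b)
    exact hab (mul_self_eq_zero.1 e1)
  have e1 := h.om
  rw [hOm0, Matrix.mul_zero] at e1
  exact one_ne_zero (neg_eq_zero.1 e1.symm)

theorem op_sw {t : Tn (Fin 2 ⊕ Fin 2) B}
    (h2 : rnm (Equiv.swap (Sum.inr 0) (Sum.inr 1)) t = -t) : op Om t * swM B = -op Om t := by
  have e1 : mat t * swM B = -mat t := by
    ext ⟨a, b⟩ ⟨c, d⟩
    rw [mul_swM]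
    have e2 := congrFun h2 (Sum.elim ![a, b] ![c, d])
    change t _ = -t (Sum.elim ![a, b] ![c, d]) at e2
    change t (Sum.elim ![a, b] ![d, c]) = -t (Sum.elim ![a, b] ![c, d])
    rw [← e2]
    congr 1
    funext m
    rcases m with m | m
    · rw [Function.comp_apply, Equiv.swap_apply_of_ne_of_ne (by simp) (by simp)]
      rfl
    · fin_cases m
      · rfl
      · rfl
  unfold op
  rw [Matrix.mul_assoc, e1, Matrix.mul_neg]

/-- **One exceptional invariant generates all.** -/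
theorem anti_mem (F : Fam Om) (hθ : w2 Om ∈ F.N (Fin 2))
    (hσ : ∀ (σ : ℂ ≃+* ℂ), ∀ u ∈ F.N (Fin 2 ⊕ Fin 2), (fun x => σ (u x)) ∈ F.N (Fin 2 ⊕ Fin 2))
    {t : Tn (Fin 2 ⊕ Fin 2) B} (ht : t ∈ Ivt D (Fin 2 ⊕ Fin 2))
    (h2 : rnm (Equiv.swap (Sum.inr 0) (Sum.inr 1)) t = -t) (htN : t ∈ F.N (Fin 2 ⊕ Fin 2))
    (hne : ¬ ∃ x y : ℂ, ∀ z, t z = x * (Om (z (Sum.inl 0)) (z (Sum.inl 1)) *
      Om (z (Sum.inr 0)) (z (Sum.inr 1))) + y * (Om (z (Sum.inl 0)) (z (Sum.inr 0)) *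
      Om (z (Sum.inl 1)) (z (Sum.inr 1)) - Om (z (Sum.inl 0)) (z (Sum.inr 1)) *
      Om (z (Sum.inl 1)) (z (Sum.inr 0))))
    {t' : Tn (Fin 2 ⊕ Fin 2) B} (ht' : t' ∈ Ivt D (Fin 2 ⊕ Fin 2))
    (h2' : rnm (Equiv.swap (Sum.inr 0) (Sum.inr 1)) t' = -t') : t' ∈ F.N (Fin 2 ⊕ Fin 2) := by
  have hT := h.three.trip
  have hw : 1 - swM B ∈ NN F :=
    (NN F).sub_mem (NN_one h.om h.omT F hθ) (NN_sw h.om h.omT F hθ)
  obtain ⟨c, hc⟩ := hT.E0_of_K h.comm_K h.K_sw h.s_K h.K_ne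
  have hE : (1 - swM B) - ∑ i, sf h.three.al h.three.be i * (1 - swM B) ∈ NN F := by
    rw [hc]
    exact (NN F).smul_mem _ (NN_K h.om h.omT F hθ)
  obtain ⟨a, b, hab⟩ := hT.anti (h.comm_op ht) (h.op_sw h2)
  have hop : op Om t ∈ NN F := by
    rw [mem_NN, ten_op h.om]
    exact htN
  have hb : ¬ (b 0 = b 1 ∧ b 0 = b 2) := by
    rintro ⟨hb1, hb2⟩
    apply hne
    have e1 : op Om t = (a + b 0) • (1 - swM B) - (b 0 * c) • KM Om := by
      have e2 : (∑ i, b i • sf h.three.al h.three.be i) * (1 - swM B) =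
          b 0 • ∑ i, sf h.three.al h.three.be i * (1 - swM B) := by
        rw [Fin.sum_univ_three, Fin.sum_univ_three, ← hb1, ← hb2]
        simp only [add_mul, smul_mul_assoc, smul_add]
      have e3 : ∑ i, sf h.three.al h.three.be i * (1 - swM B) = (1 - swM B) - c • KM Om := by
        rw [← hc]
        abel
      rw [hab, add_mul, e2, e3, smul_mul_assoc, one_mul]
      module
    have e4 : t = (a + b 0) • (ten Om 1 - ten Om (swM B)) - (b 0 * c) • ten Om (KM Om) := by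
      rw [← ten_op h.om t, e1]
      change tenL Om _ = _ • (tenL Om _ - tenL Om _) - _ • tenL Om _
      rw [map_sub, map_smul, map_smul, map_sub]
    refine ⟨-(b 0 * c), a + b 0, fun z => ?_⟩
    have e5 := congrFun e4 z
    rw [ten_one h.om h.omT, ten_sw h.om h.omT, ten_K h.om h.omT] at e5
    rw [e5]
    change (a + b 0) * (tP Om z - tP Om (z ∘ _)) - (b 0 * c) * (Om _ _ * Om _ _) = _
    unfold tP
    simp only [Function.comp_apply, Equiv.swap_apply_left, Equiv.swap_apply_right]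
    rw [Equiv.swap_apply_of_ne_of_ne (by simp) (by simp),
      Equiv.swap_apply_of_ne_of_ne (by simp) (by simp)]
    ring
  rw [hab] at hop
  obtain ⟨i, hi⟩ := hT.single (NN F) (fun x hx y hy => NN_mul h.om h.omT F hx hy) hw hE hop hb
  have hall : ∀ i', sf h.three.al h.three.be i' * (1 - swM B) ∈ NN F := by
    intro i'
    obtain ⟨σ, hσ'⟩ := gal h.three h.inv h.lie i i'
    have e1 : (sf h.three.al h.three.be i * (1 - swM B)).map σ =
        sf h.three.al h.three.be i' * (1 - swM B) := by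
      rw [map_mul' σ, hσ']
      congr 1
      ext x y
      change σ ((1 : Matrix (B × B) (B × B) ℂ) x y - swM B x y) =
        (1 : Matrix (B × B) (B × B) ℂ) x y - swM B x y
      rw [map_sub]
      congr 1
      · rw [Matrix.one_apply]
        split_ifs <;> simp
      · unfold swM
        split_ifs <;> simp
    rw [← e1, mem_NN]
    have e2 := hσ σ _ (mem_NN.1 hi)
    convert e2 using 1
    funext z
    change ((Om ⊗ₖ Om) * (sf h.three.al h.three.be i * (1 - swM B)).map σ) _ _ =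
      σ (((Om ⊗ₖ Om) * (sf h.three.al h.three.be i * (1 - swM B))) _ _)
    have e3 : (Om ⊗ₖ Om) = (Om ⊗ₖ Om).map σ := by
      ext ⟨x, y⟩ ⟨z, w⟩
      rw [Matrix.map_apply]
      change Om x z * Om y w = σ (Om x z * Om y w)
      rw [map_mul]
      have f1 := congrFun (congrFun (h.real σ) x) z
      have f2 := congrFun (congrFun (h.real σ) y) w
      rw [Matrix.map_apply] at f1 f2
      rw [f1, f2]
    conv_lhs => rw [e3]
    rw [← map_mul' σ]
    rfl
  obtain ⟨a', b', hab'⟩ := hT.anti (h.comm_op ht') (h.op_sw h2')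
  have hop' : op Om t' ∈ NN F := by
    rw [hab', add_mul, smul_mul_assoc, one_mul, Finset.sum_mul]
    refine (NN F).add_mem ((NN F).smul_mem _ hw) ((NN F).sum_mem fun i' _ => ?_)
    rw [smul_mul_assoc]
    exact (NN F).smul_mem _ (hall i')
  rw [mem_NN, ten_op h.om] at hop'
  exact hop'

end Dat

end

end Pool.Agent.H841.MF
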