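import Pool.Agent.H841.MF.Sw

/-!
# Conjugation of the factors
-/

set_option linter.unusedSectionVars false

namespace Pool.Agent.H841.MF

open Finset Matrix Pool.Agent.H841.MS Pool.Agent.W548.Odd
open scoped Kronecker

noncomputable section

/-- The canonical tensor is invariant under automorphisms. -/
theorem canon_aut {N : Type} [AddCommGroup N] [Module ℂ N] (Φ : M2 →ₗ[ℂ] M2 →ₗ[ℂ] N)
    (θ : M2 →ₗ[ℂ] M2) (hm : ∀ X Y, θ (X * Y) = θ X * θ Y) (ht : ∀ X, (θ X).trace = X.trace)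
    (hinj : Function.Injective θ) :
    ∑ a, ∑ b, Φ (θ (mu a b)) (θ (mu b a)) = ∑ a, ∑ b, Φ (mu a b) (mu b a) := by
  have hsurj : Function.Surjective θ := LinearMap.surjective_of_injective hinj
  have e1 : ∀ X : M2, X = ∑ c, ∑ d, (mu d c * X).trace • mu c d := by
    intro X
    conv_lhs => rw [← sum_mu X]
    rw [Finset.sum_comm]
  have e2 : ∀ c d : Fin 2, ∑ a, ∑ b, (mu d c * θ (mu a b)).trace • θ (mu b a) = mu d c := by
    intro c d
    obtain ⟨W, hW⟩ := hsurj (mu d c)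
    have f1 : ∀ a b : Fin 2, (mu d c * θ (mu a b)).trace = (mu a b * W).trace := by
      intro a b
      rw [← hW, ← hm, ht, Matrix.trace_mul_comm]
    simp only [f1, ← map_smul, ← map_sum]
    rw [sum_mu, hW]
  have e3 : ∀ a b : Fin 2, Φ (θ (mu a b)) (θ (mu b a)) = ∑ c, ∑ d,
      (mu d c * θ (mu a b)).trace • Φ (mu c d) (θ (mu b a)) := by
    intro a b
    conv_lhs => rw [e1 (θ (mu a b))]
    simp only [map_sum, LinearMap.sum_apply, map_smul, LinearMap.smul_apply]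
  have e4 : ∀ c d : Fin 2, Φ (mu c d) (mu d c) = ∑ a, ∑ b,
      (mu d c * θ (mu a b)).trace • Φ (mu c d) (θ (mu b a)) := by
    intro c d
    conv_lhs => rw [← e2 c d]
    simp only [map_sum, map_smul]
  simp only [e3]
  have e5 : ∑ c, ∑ d, Φ (mu c d) (mu d c) = ∑ c, ∑ d, ∑ a, ∑ b,
      (mu d c * θ (mu a b)).trace • Φ (mu c d) (θ (mu b a)) :=
    Finset.sum_congr rfl fun c _ => Finset.sum_congr rfl fun d _ => e4 c d
  rw [e5]
  -- exchange of the summations
  have key : ∀ F : Fin 2 → Fin 2 → Fin 2 → Fin 2 → N, ∑ a, ∑ b, ∑ c, ∑ d, F a b c d =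
      ∑ c, ∑ d, ∑ a, ∑ b, F a b c d := by
    intro F
    simp only [Fin.sum_univ_two]
    abel
  exact key _

variable {B : Type} [Fintype B] [DecidableEq B]

theorem map_mul' (σ : ℂ ≃+* ℂ) {C : Type} [Fintype C] (X Y : Matrix C C ℂ) :
    (X * Y).map σ = X.map σ * Y.map σ := Matrix.map_mul

theorem trace_map' (σ : ℂ ≃+* ℂ) {C : Type} [Fintype C] (X : Matrix C C ℂ) :
    (X.map σ).trace = σ X.trace := by
  unfold Matrix.trace
  rw [map_sum]
  rfl

/-- The conjugate homomorphism. -/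
def cjg (σ : ℂ ≃+* ℂ) (f : M2 →ₗ[ℂ] Matrix B B ℂ) : M2 →ₗ[ℂ] Matrix B B ℂ where
  toFun X := (f (X.map σ.symm)).map σ
  map_add' X Y := by
    rw [Matrix.map_add _ (map_add σ.symm), map_add, Matrix.map_add _ (map_add σ)]
  map_smul' c X := by
    have e1 : (c • X).map σ.symm = σ.symm c • X.map σ.symm := by
      ext a b
      simp
    rw [e1, map_smul, RingHom.id_apply]
    ext a b
    simp

theorem cjg_apply (σ : ℂ ≃+* ℂ) (f : M2 →ₗ[ℂ] Matrix B B ℂ) (X : M2) :
    cjg σ f X = (f (X.map σ.symm)).map σ := rfl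

/-- Commutators with elements of one factor. -/
theorem br_mem {r : Fin 3 → (M2 →ₗ[ℂ] Matrix B B ℂ)} (h : Three r) (i : Fin 3) (Y : M2)
    {M : Matrix B B ℂ}
    (hM : M ∈ Submodule.span ℂ {M | ∃ i X, Matrix.trace X = 0 ∧ M = r i X}) :
    ∃ Z : M2, Z.trace = 0 ∧ r i Y * M - M * r i Y = r i Z := by
  induction hM using Submodule.span_induction with
  | mem M hM =>
    obtain ⟨j, X, hX, rfl⟩ := hM
    by_cases hij : i = j
    · subst hij
      refine ⟨Y * X - X * Y, ?_, ?_⟩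
      · rw [Matrix.trace_sub, Matrix.trace_mul_comm, sub_self]
      · rw [map_sub, h.mul, h.mul]
    · refine ⟨0, Matrix.trace_zero _ _, ?_⟩
      rw [h.comm i j hij, sub_self, map_zero]
  | zero => exact ⟨0, Matrix.trace_zero _ _, by simp⟩
  | add M M' _ _ hM hM' =>
    obtain ⟨Z, hZ, e⟩ := hM
    obtain ⟨Z', hZ', e'⟩ := hM'
    refine ⟨Z + Z', by rw [Matrix.trace_add, hZ, hZ', add_zero], ?_⟩
    rw [map_add, ← e, ← e', Matrix.mul_add, Matrix.add_mul]
    abel
  | smul a M _ hM =>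
    obtain ⟨Z, hZ, e⟩ := hM
    refine ⟨a • Z, by rw [Matrix.trace_smul, hZ, smul_zero], ?_⟩
    rw [map_smul, ← e, Matrix.mul_smul, Matrix.smul_mul, smul_sub]

/-- A relation between matrices of trace zero. -/
theorem two_rel {X Y : M2} (hX : X.trace = 0) (hY : Y.trace = 0) (hYY : Y * Y = 1) :
    X = (4 : ℂ)⁻¹ • (Y * (Y * X - X * Y) - (Y * X - X * Y) * Y) +
      ((2 : ℂ)⁻¹ * (X * Y).trace) • Y := by
  have h1 : X 1 1 = -X 0 0 := by
    rw [Matrix.trace_fin_two] at hX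
    linear_combination hX
  have h2 : Y 1 1 = -Y 0 0 := by
    rw [Matrix.trace_fin_two] at hY
    linear_combination hY
  have h3 : Y 0 0 * Y 0 0 + Y 0 1 * Y 1 0 = 1 := by
    have h4 := congrFun (congrFun hYY 0) 0
    simpa [Matrix.mul_apply, Fin.sum_univ_two] using h4
  ext a b
  fin_cases a <;> fin_cases b <;>
    simp [Matrix.mul_apply, Fin.sum_univ_two, Matrix.trace_fin_two, h1, h2]
  · linear_combination (-X 0 0) * h3
  · linear_combination (-X 0 1) * h3
  · linear_combination (-X 1 0) * h3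
  · linear_combination (X 0 0) * h3

/-- **All exchanges are conjugate.** -/
theorem gal {r : Fin 3 → (M2 →ₗ[ℂ] Matrix B B ℂ)} (h : Three r) {D : Matrix B B ℂ}
    (hD : D * D = 1)
    (hlie : LA {D} = Submodule.span ℂ {M | ∃ i X, Matrix.trace X = 0 ∧ M = r i X})
    (i i' : Fin 3) :
    ∃ σ : ℂ ≃+* ℂ, (ss (h.al i) (h.be i)).map σ = ss (h.al i') (h.be i') := by
  have : Nonempty B := Fintype.card_pos_iff.1 (by rw [h.card]; norm_num)
  obtain ⟨σ₁, Y₁, hY₁, e₁⟩ := tra_one h.mul h.one h.comm hD hlie i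
  obtain ⟨σ₂, Y₂, hY₂, e₂⟩ := tra_one h.mul h.one h.comm hD hlie i'
  have hinj : ∀ i, Function.Injective (r i) := fun i =>
    (injective_iff_map_eq_zero _).2 fun X hX => inj i (h.mul i) (h.one i) hX
  let σ : ℂ ≃+* ℂ := σ₁.symm.trans σ₂
  have hσ : (r i Y₁).map σ = r i' Y₂ := by
    rw [← e₁, ← e₂]
    ext a b
    change σ₂ (σ₁.symm (σ₁ (D a b))) = σ₂ (D a b)
    rw [RingEquiv.symm_apply_apply]
  have hYY : Y₁ * Y₁ = 1 := by
    apply hinj i
    rw [h.mul, ← e₁, ← Matrix.map_mul, hD, h.one, Matrix.map_one _ (map_zero σ₁) (map_one σ₁)]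
  let f := cjg σ (r i)
  have hfm : ∀ X Y, f (X * Y) = f X * f Y := by
    intro X Y
    rw [cjg_apply, cjg_apply, cjg_apply, map_mul' σ.symm, h.mul, map_mul' σ]
  have hf1 : f 1 = 1 := by
    rw [cjg_apply, Matrix.map_one _ (map_zero σ.symm) (map_one σ.symm), h.one,
      Matrix.map_one _ (map_zero σ) (map_one σ)]
  let Y : M2 := Y₁.map σ
  have hfY : f Y = r i' Y₂ := by
    rw [cjg_apply, ← hσ]
    congr 2
    ext a b
    exact σ.symm_apply_apply _
  have hYt : Y.trace = 0 := by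
    change (Y₁.map σ).trace = 0
    rw [trace_map', hY₁, map_zero]
  have hYYt : Y * Y = 1 := by
    change Y₁.map σ * Y₁.map σ = 1
    rw [← map_mul', hYY, Matrix.map_one _ (map_zero σ) (map_one σ)]
  have hfmem : ∀ X : M2, X.trace = 0 → f X ∈
      Submodule.span ℂ {M | ∃ i X, Matrix.trace X = 0 ∧ M = r i X} := by
    intro X hX
    rw [← hlie, cjg_apply]
    refine LA_aut (σ : ℂ →+* ℂ) ?_
    rw [hlie]
    exact Submodule.subset_span ⟨i, _, by rw [trace_map', hX, map_zero], rfl⟩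
  have hf0 : ∀ X : M2, X.trace = 0 → ∃ Z : M2, Z.trace = 0 ∧ f X = r i' Z := by
    intro X hX
    obtain ⟨Z, hZ, eZ⟩ := br_mem h i' Y₂ (hfmem X hX)
    have e3 : f X = (4 : ℂ)⁻¹ • (f Y * (f Y * f X - f X * f Y) - (f Y * f X - f X * f Y) * f Y) +
        ((2 : ℂ)⁻¹ * (X * Y).trace) • f Y := by
      have e4 := congrArg f (two_rel hX hYt hYYt)
      simpa only [map_add, map_smul, map_sub, hfm] using e4
    rw [hfY, eZ] at e3
    refine ⟨(4 : ℂ)⁻¹ • (Y₂ * Z - Z * Y₂) + ((2 : ℂ)⁻¹ * (X * Y).trace) • Y₂, ?_, ?_⟩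
    · rw [Matrix.trace_add, Matrix.trace_smul, Matrix.trace_smul, Matrix.trace_sub,
        Matrix.trace_mul_comm Y₂, sub_self, hY₂, smul_zero, smul_zero, add_zero]
    · rw [e3, map_add, map_smul, map_smul, map_sub, h.mul, h.mul]
  have hf2 : ∀ X : M2, ∃ Z : M2, Z.trace = X.trace ∧ f X = r i' Z := by
    intro X
    obtain ⟨Z, hZ, eZ⟩ := hf0 (X - ((2 : ℂ)⁻¹ * X.trace) • 1) (by
      rw [Matrix.trace_sub, Matrix.trace_smul, Matrix.trace_one, smul_eq_mul, Fintype.card_fin]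
      push_cast
      ring)
    refine ⟨Z + ((2 : ℂ)⁻¹ * X.trace) • 1, ?_, ?_⟩
    · rw [Matrix.trace_add, hZ, Matrix.trace_smul, Matrix.trace_one, smul_eq_mul, Fintype.card_fin]
      push_cast
      ring
    · rw [map_sub, map_smul, hf1] at eZ
      rw [map_add, map_smul, h.one, ← eZ, sub_add_cancel]
  -- the automorphism
  have hfr : ∀ X, f X ∈ LinearMap.range (r i') := fun X => by
    obtain ⟨Z, -, hZ⟩ := hf2 X
    exact ⟨Z, hZ.symm⟩
  let θ : M2 →ₗ[ℂ] M2 := (LinearEquiv.ofInjective (r i') (hinj i')).symm.toLinearMap.comp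
    (f.codRestrict _ hfr)
  have hθ : ∀ X, r i' (θ X) = f X := by
    intro X
    have e4 := LinearEquiv.apply_symm_apply (LinearEquiv.ofInjective (r i') (hinj i'))
      (f.codRestrict _ hfr X)
    exact congrArg Subtype.val e4
  have hθm : ∀ X Y, θ (X * Y) = θ X * θ Y := by
    intro X Y
    apply hinj i'
    rw [h.mul, hθ, hθ, hθ, hfm]
  have hθt : ∀ X, (θ X).trace = X.trace := by
    intro X
    obtain ⟨Z, hZ, eZ⟩ := hf2 X
    rw [← hZ]
    congr 1
    apply hinj i'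
    rw [hθ, eZ]
  have hθi : Function.Injective θ := by
    intro X X' hXX
    have e5 : f X = f X' := by rw [← hθ, ← hθ, hXX]
    have e6 : r i (X.map σ.symm) = r i (X'.map σ.symm) := by
      rw [cjg_apply, cjg_apply] at e5
      ext a b
      exact σ.injective (congrFun (congrFun e5 a) b)
    have e7 := hinj i e6
    ext a b
    exact σ.symm.injective (congrFun (congrFun e7 a) b)
  let Φ : M2 →ₗ[ℂ] M2 →ₗ[ℂ] Matrix (B × B) (B × B) ℂ :=
    LinearMap.mk₂ ℂ (fun X Y => r i' X ⊗ₖ r i' Y)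
      (fun X X' Y => by rw [map_add, add_kronecker]) (fun c X Y => by rw [map_smul, smul_kronecker])
      (fun X Y Y' => by rw [map_add, kronecker_add]) (fun c X Y => by rw [map_smul, kronecker_smul])
  have hc := canon_aut Φ θ hθm hθt hθi
  have hs : ∀ i, ss (h.al i) (h.be i) = ∑ a, ∑ b, r i (mu a b) ⊗ₖ r i (mu b a) := by
    intro i
    unfold ss
    refine Finset.sum_congr rfl fun a _ => Finset.sum_congr rfl fun b _ => ?_
    rw [Three.al_apply, Three.be_apply, ← mul_kronecker_mul, Matrix.mul_one, Matrix.one_mul]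
  refine ⟨σ, ?_⟩
  rw [hs, hs]
  refine Eq.trans ?_ hc
  have hmu : ∀ a b : Fin 2, (mu a b).map σ.symm = mu a b := by
    intro a b
    refine Matrix.ext fun x y => ?_
    change σ.symm (Matrix.single a b (1 : ℂ) x y) = Matrix.single a b (1 : ℂ) x y
    rw [Matrix.single_apply]
    split_ifs
    · exact map_one _
    · exact map_zero _
  have hθmu : ∀ a b : Fin 2, (r i (mu a b)).map σ = r i' (θ (mu a b)) := by
    intro a b
    rw [hθ, cjg_apply, hmu]
  ext ⟨x, y⟩ ⟨z, w⟩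
  rw [Matrix.map_apply]
  simp only [Matrix.sum_apply, map_sum]
  refine Finset.sum_congr rfl fun a _ => Finset.sum_congr rfl fun b _ => ?_
  change σ (r i (mu a b) x z * r i (mu b a) y w) = r i' (θ (mu a b)) x z * r i' (θ (mu b a)) y w
  rw [map_mul, ← hθmu, ← hθmu]
  rfl

end

end Pool.Agent.H841.MF
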