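import Pool.Agent.H841.MF.Alg3

/-!
# Three algebras of two by two matrices acting on a space of dimension eight
-/

set_option linter.unusedSectionVars false

namespace Pool.Agent.H841.MF

open Finset Matrix Pool.Agent.H841.MS
open scoped Kronecker

noncomputable section

variable {B : Type} [Fintype B] [DecidableEq B]

/-- Three commuting algebras of two by two matrices on a space of dimension eight. -/
structure Three (r : Fin 3 → (M2 →ₗ[ℂ] Matrix B B ℂ)) : Prop where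
  mul : ∀ i X Y, r i (X * Y) = r i X * r i Y
  one : ∀ i, r i 1 = 1
  comm : ∀ i j, i ≠ j → ∀ X Y, r i X * r j Y = r j Y * r i X
  card : Fintype.card B = 8

/-- An idempotent matrix of trace one has rank one. -/
theorem rank_one {e : Matrix B B ℂ} (he : e * e = e) (ht : e.trace = 1) (M : Matrix B B ℂ) :
    ∃ c : ℂ, e * M * e = c • e := by
  have h1 : IsIdempotentElem (Matrix.toLin' e) := by
    refine LinearMap.ext fun v => ?_
    change Matrix.toLin' e (Matrix.toLin' e v) = _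
    rw [Matrix.toLin'_apply, Matrix.toLin'_apply, Matrix.mulVec_mulVec, he]
  have h2 : Module.finrank ℂ (LinearMap.range (Matrix.toLin' e)) = 1 := by
    have h3 := (LinearMap.IsIdempotentElem.isProj_range _ h1).trace
    rw [Matrix.trace_toLin'_eq, ht] at h3
    exact_mod_cast h3.symm
  obtain ⟨⟨v, hv⟩, -, hspan⟩ := finrank_eq_one_iff'.1 h2
  have h3 : ∀ w, ∃ c : ℂ, e *ᵥ w = c • v := by
    intro w
    obtain ⟨c, hc⟩ := hspan ⟨Matrix.toLin' e w, LinearMap.mem_range_self _ _⟩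
    refine ⟨c, ?_⟩
    have h4 := congrArg Subtype.val hc
    rw [← Matrix.toLin'_apply]
    exact h4.symm
  obtain ⟨c, hc⟩ := h3 (M *ᵥ v)
  refine ⟨c, ?_⟩
  have h4 : ∀ w, (e * M * e) *ᵥ w = (c • e) *ᵥ w := by
    intro w
    obtain ⟨d, hd⟩ := h3 w
    rw [← mulVec_mulVec, hd, mulVec_smul, ← mulVec_mulVec, hc, smul_mulVec, hd, smul_comm]
  ext a b
  have h5 := congrFun (h4 (Pi.single b 1)) a
  simpa using h5

namespace Three

variable {r : Fin 3 → (M2 →ₗ[ℂ] Matrix B B ℂ)} (h : Three r)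
include h

/-- The trace of a product with a matrix unit. -/
theorem trace_half (i : Fin 3) {M : Matrix B B ℂ} (hM : ∀ X, r i X * M = M * r i X) :
    (r i (mu 0 0) * M).trace = (2 : ℂ)⁻¹ * M.trace := by
  have e1 : r i (mu 0 0) = r i (mu 0 1) * r i (mu 1 0) := by rw [← h.mul, mu_mul, if_pos rfl]
  have e2 : r i (mu 1 1) = r i (mu 1 0) * r i (mu 0 1) := by rw [← h.mul, mu_mul, if_pos rfl]
  have e3 : (r i (mu 0 0) * M).trace = (r i (mu 1 1) * M).trace := by
    rw [e1, Matrix.mul_assoc, hM, ← Matrix.mul_assoc, Matrix.trace_mul_comm, e2, Matrix.mul_assoc]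
  have e4 : M.trace = (r i (mu 0 0) * M).trace + (r i (mu 1 1) * M).trace := by
    rw [← Matrix.trace_add, ← Matrix.add_mul, ← map_add]
    have e5 : mu 0 0 + mu 1 1 = (1 : M2) := by
      rw [one_eq_mu, Fin.sum_univ_two]
    rw [e5, h.one, Matrix.one_mul]
  rw [e4, ← e3]
  ring

/-- The primitive idempotent. -/
def e (_ : Three r) : Matrix B B ℂ := r 0 (mu 0 0) * (r 1 (mu 0 0) * r 2 (mu 0 0))

theorem q_q (i : Fin 3) : r i (mu 0 0) * r i (mu 0 0) = r i (mu 0 0) := by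
  rw [← h.mul, mu_mul, if_pos rfl]

theorem ee : h.e * h.e = h.e := by
  unfold e
  have c01 := h.comm 0 1 (by decide) (mu 0 0) (mu 0 0)
  have c02 := h.comm 0 2 (by decide) (mu 0 0) (mu 0 0)
  have c12 := h.comm 1 2 (by decide) (mu 0 0) (mu 0 0)
  set x := r 0 (mu 0 0)
  set y := r 1 (mu 0 0)
  set z := r 2 (mu 0 0)
  have hx : x * x = x := h.q_q 0
  have hy : y * y = y := h.q_q 1
  have hz : z * z = z := h.q_q 2
  calc x * (y * z) * (x * (y * z)) = x * (y * (z * x) * (y * z)) := by noncomm_ring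
    _ = x * (y * (x * z) * (y * z)) := by rw [c02]
    _ = x * (y * x) * (z * y) * z := by noncomm_ring
    _ = x * (x * y) * (y * z) * z := by rw [c01, c12]
    _ = (x * x) * (y * y) * (z * z) := by noncomm_ring
    _ = x * (y * z) := by rw [hx, hy, hz, Matrix.mul_assoc]

theorem trace_e : h.e.trace = 1 := by
  unfold e
  rw [h.trace_half 0 fun X => ?_, h.trace_half 1 fun X => ?_, ← Matrix.mul_one (r 2 (mu 0 0)),
    h.trace_half 2 fun X => ?_, Matrix.trace_one, h.card]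
  · norm_num
  · rw [Matrix.mul_one, Matrix.one_mul]
  · exact h.comm 1 2 (by decide) _ _
  · rw [← Matrix.mul_assoc, h.comm 0 1 (by decide), Matrix.mul_assoc, h.comm 0 2 (by decide),
      Matrix.mul_assoc]

/-- The algebras generate all matrices. -/
theorem gen (S : Subalgebra ℂ (Matrix B B ℂ)) (hS : ∀ i X, r i X ∈ S) (Y : Matrix B B ℂ) :
    Y ∈ S := by
  have exp : ∀ (i : Fin 3) (Y : Matrix B B ℂ), Y = ∑ a, ∑ b, r i (mu a 0) *
      (r i (mu 0 0) * (r i (mu 0 a) * Y * r i (mu b 0)) * r i (mu 0 0)) * r i (mu 0 b) := by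
    intro i Y
    have e1 : ∀ a b, r i (mu a 0) * (r i (mu 0 0) * (r i (mu 0 a) * Y * r i (mu b 0)) *
        r i (mu 0 0)) * r i (mu 0 b) = r i (mu a a) * Y * r i (mu b b) := by
      intro a b
      have f1 : r i (mu a 0) * (r i (mu 0 0) * r i (mu 0 a)) = r i (mu a a) := by
        rw [← h.mul, mu_mul, if_pos rfl, ← h.mul, mu_mul, if_pos rfl]
      have f2 : r i (mu b 0) * r i (mu 0 0) * r i (mu 0 b) = r i (mu b b) := by
        rw [← h.mul, mu_mul, if_pos rfl, ← h.mul, mu_mul, if_pos rfl]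
      rw [← f1, ← f2]
      noncomm_ring
    simp only [e1, ← Finset.sum_mul, ← Finset.mul_sum, ← map_sum, ← one_eq_mu, h.one,
      Matrix.one_mul, Matrix.mul_one]
  have hone : (1 : Matrix B B ℂ) ∈ S := S.one_mem
  -- last step
  have s3 : ∀ Y, h.e * Y * h.e ∈ S := by
    intro Y
    obtain ⟨c, hc⟩ := rank_one h.ee h.trace_e Y
    rw [hc]
    exact S.smul_mem (S.mul_mem (hS 0 _) (S.mul_mem (hS 1 _) (hS 2 _))) c
  have s2 : ∀ Y, (r 0 (mu 0 0) * r 1 (mu 0 0)) * Y * (r 0 (mu 0 0) * r 1 (mu 0 0)) ∈ S := by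
    intro Y
    rw [exp 2 ((r 0 (mu 0 0) * r 1 (mu 0 0)) * Y * (r 0 (mu 0 0) * r 1 (mu 0 0)))]
    refine S.sum_mem fun a _ => S.sum_mem fun b _ => S.mul_mem (S.mul_mem (hS 2 _) ?_) (hS 2 _)
    have e1 : r 2 (mu 0 0) * (r 2 (mu 0 a) * ((r 0 (mu 0 0) * r 1 (mu 0 0)) * Y *
        (r 0 (mu 0 0) * r 1 (mu 0 0))) * r 2 (mu b 0)) * r 2 (mu 0 0) =
        h.e * (r 2 (mu 0 a) * Y * r 2 (mu b 0)) * h.e := by
      have f1 : ∀ X, r 2 X * (r 0 (mu 0 0) * r 1 (mu 0 0)) = (r 0 (mu 0 0) * r 1 (mu 0 0)) * r 2 X := by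
        intro X
        rw [← Matrix.mul_assoc, h.comm 2 0 (by decide), Matrix.mul_assoc, h.comm 2 1 (by decide),
          Matrix.mul_assoc]
      have f2 : h.e = (r 0 (mu 0 0) * r 1 (mu 0 0)) * r 2 (mu 0 0) := by
        unfold e
        rw [Matrix.mul_assoc]
      have f3 : h.e = r 2 (mu 0 0) * (r 0 (mu 0 0) * r 1 (mu 0 0)) := by rw [f2, f1]
      set q := r 0 (mu 0 0) * r 1 (mu 0 0)
      calc r 2 (mu 0 0) * (r 2 (mu 0 a) * (q * Y * q) * r 2 (mu b 0)) * r 2 (mu 0 0) =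
          r 2 (mu 0 0) * (r 2 (mu 0 a) * q) * Y * (q * r 2 (mu b 0)) * r 2 (mu 0 0) := by
            noncomm_ring
        _ = r 2 (mu 0 0) * (q * r 2 (mu 0 a)) * Y * (r 2 (mu b 0) * q) * r 2 (mu 0 0) := by
            rw [f1, f1]
        _ = (r 2 (mu 0 0) * q) * (r 2 (mu 0 a) * Y * r 2 (mu b 0)) * (q * r 2 (mu 0 0)) := by
            noncomm_ring
        _ = _ := by rw [← f2, ← f3]
    rw [e1]
    exact s3 _
  have s1 : ∀ Y, r 0 (mu 0 0) * Y * r 0 (mu 0 0) ∈ S := by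
    intro Y
    rw [exp 1 (r 0 (mu 0 0) * Y * r 0 (mu 0 0))]
    refine S.sum_mem fun a _ => S.sum_mem fun b _ => S.mul_mem (S.mul_mem (hS 1 _) ?_) (hS 1 _)
    have f1 : ∀ X, r 1 X * r 0 (mu 0 0) = r 0 (mu 0 0) * r 1 X := fun X =>
      h.comm 1 0 (by decide) _ _
    have e1 : r 1 (mu 0 0) * (r 1 (mu 0 a) * (r 0 (mu 0 0) * Y * r 0 (mu 0 0)) * r 1 (mu b 0)) *
        r 1 (mu 0 0) = (r 0 (mu 0 0) * r 1 (mu 0 0)) * (r 1 (mu 0 a) * Y * r 1 (mu b 0)) *
          (r 0 (mu 0 0) * r 1 (mu 0 0)) := by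
      have f2 : r 0 (mu 0 0) * r 1 (mu 0 0) = r 1 (mu 0 0) * r 0 (mu 0 0) := (f1 _).symm
      set q := r 0 (mu 0 0)
      calc r 1 (mu 0 0) * (r 1 (mu 0 a) * (q * Y * q) * r 1 (mu b 0)) * r 1 (mu 0 0) =
          r 1 (mu 0 0) * (r 1 (mu 0 a) * q) * Y * (q * r 1 (mu b 0)) * r 1 (mu 0 0) := by
            noncomm_ring
        _ = r 1 (mu 0 0) * (q * r 1 (mu 0 a)) * Y * (r 1 (mu b 0) * q) * r 1 (mu 0 0) := by
            rw [f1, f1]
        _ = (r 1 (mu 0 0) * q) * (r 1 (mu 0 a) * Y * r 1 (mu b 0)) * (q * r 1 (mu 0 0)) := by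
            noncomm_ring
        _ = _ := by rw [f1]
    rw [e1]
    exact s2 _
  rw [exp 0 Y]
  exact S.sum_mem fun a _ => S.sum_mem fun b _ => S.mul_mem (S.mul_mem (hS 0 _) (s1 _)) (hS 0 _)

/-- The left factor. -/
def al (i : Fin 3) : M2 →ₐ[ℂ] Matrix (B × B) (B × B) ℂ :=
  AlgHom.ofLinearMap
    { toFun := fun X => r i X ⊗ₖ (1 : Matrix B B ℂ)
      map_add' := fun X Y => by rw [map_add, add_kronecker]
      map_smul' := fun c X => by rw [map_smul, smul_kronecker]; rfl }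
    (by
      change r i 1 ⊗ₖ (1 : Matrix B B ℂ) = 1
      rw [h.one, one_kronecker_one])
    (fun X Y => by
      change r i (X * Y) ⊗ₖ (1 : Matrix B B ℂ) = (r i X ⊗ₖ (1 : Matrix B B ℂ)) * (r i Y ⊗ₖ 1)
      rw [h.mul, ← mul_kronecker_mul, Matrix.one_mul])

/-- The right factor. -/
def be (i : Fin 3) : M2 →ₐ[ℂ] Matrix (B × B) (B × B) ℂ :=
  AlgHom.ofLinearMap
    { toFun := fun X => (1 : Matrix B B ℂ) ⊗ₖ r i X
      map_add' := fun X Y => by rw [map_add, kronecker_add]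
      map_smul' := fun c X => by rw [map_smul, kronecker_smul]; rfl }
    (by
      change (1 : Matrix B B ℂ) ⊗ₖ r i 1 = 1
      rw [h.one, one_kronecker_one])
    (fun X Y => by
      change (1 : Matrix B B ℂ) ⊗ₖ r i (X * Y) = ((1 : Matrix B B ℂ) ⊗ₖ r i X) * (1 ⊗ₖ r i Y)
      rw [h.mul, ← mul_kronecker_mul, Matrix.one_mul])

theorem al_apply (i : Fin 3) (X : M2) : h.al i X = r i X ⊗ₖ (1 : Matrix B B ℂ) := rfl

theorem be_apply (i : Fin 3) (X : M2) : h.be i X = (1 : Matrix B B ℂ) ⊗ₖ r i X := rfl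

/-- The commutant consists of scalars. -/
theorem scal {T : Matrix (B × B) (B × B) ℂ} (h1 : ∀ i X, h.al i X * T = T * h.al i X)
    (h2 : ∀ i X, h.be i X * T = T * h.be i X) : ∃ c : ℂ, T = c • 1 := by
  have g1 : ∀ Y : Matrix B B ℂ, (Y ⊗ₖ (1 : Matrix B B ℂ)) * T = T * (Y ⊗ₖ 1) := by
    let S : Subalgebra ℂ (Matrix B B ℂ) :=
      { carrier := {Y | (Y ⊗ₖ (1 : Matrix B B ℂ)) * T = T * (Y ⊗ₖ 1)}
        mul_mem' := by
          intro X Y hX hY
          change ((X * Y) ⊗ₖ (1 : Matrix B B ℂ)) * T = T * ((X * Y) ⊗ₖ 1)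
          have e1 : (X * Y) ⊗ₖ (1 : Matrix B B ℂ) = (X ⊗ₖ (1 : Matrix B B ℂ)) * (Y ⊗ₖ 1) := by
            rw [← mul_kronecker_mul, Matrix.one_mul]
          rw [e1, Matrix.mul_assoc, hY, ← Matrix.mul_assoc, hX, Matrix.mul_assoc]
        add_mem' := by
          intro X Y hX hY
          change ((X + Y) ⊗ₖ (1 : Matrix B B ℂ)) * T = T * ((X + Y) ⊗ₖ 1)
          rw [add_kronecker, Matrix.add_mul, Matrix.mul_add, hX, hY]
        algebraMap_mem' := by
          intro c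
          change (algebraMap ℂ (Matrix B B ℂ) c ⊗ₖ (1 : Matrix B B ℂ)) * T = _
          rw [Algebra.algebraMap_eq_smul_one, smul_kronecker, one_kronecker_one, Matrix.smul_mul,
            Matrix.mul_smul, Matrix.one_mul, Matrix.mul_one] }
    exact fun Y => h.gen S (fun i X => h1 i X) Y
  have g2 : ∀ Y : Matrix B B ℂ, ((1 : Matrix B B ℂ) ⊗ₖ Y) * T = T * ((1 : Matrix B B ℂ) ⊗ₖ Y) := by
    let S : Subalgebra ℂ (Matrix B B ℂ) :=
      { carrier := {Y | ((1 : Matrix B B ℂ) ⊗ₖ Y) * T = T * ((1 : Matrix B B ℂ) ⊗ₖ Y)}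
        mul_mem' := by
          intro X Y hX hY
          change ((1 : Matrix B B ℂ) ⊗ₖ (X * Y)) * T = T * ((1 : Matrix B B ℂ) ⊗ₖ (X * Y))
          have e1 : (1 : Matrix B B ℂ) ⊗ₖ (X * Y) =
              ((1 : Matrix B B ℂ) ⊗ₖ X) * ((1 : Matrix B B ℂ) ⊗ₖ Y) := by
            rw [← mul_kronecker_mul, Matrix.one_mul]
          rw [e1, Matrix.mul_assoc, hY, ← Matrix.mul_assoc, hX, Matrix.mul_assoc]
        add_mem' := by
          intro X Y hX hY
          change ((1 : Matrix B B ℂ) ⊗ₖ (X + Y)) * T = T * ((1 : Matrix B B ℂ) ⊗ₖ (X + Y))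
          rw [kronecker_add, Matrix.add_mul, Matrix.mul_add, hX, hY]
        algebraMap_mem' := by
          intro c
          change ((1 : Matrix B B ℂ) ⊗ₖ algebraMap ℂ (Matrix B B ℂ) c) * T = _
          rw [Algebra.algebraMap_eq_smul_one, kronecker_smul, one_kronecker_one, Matrix.smul_mul,
            Matrix.mul_smul, Matrix.one_mul, Matrix.mul_one] }
    exact fun Y => h.gen S (fun i X => h2 i X) Y
  have g3 : T ∈ Set.range (Matrix.scalar (B × B)) := by
    refine mem_range_scalar_iff_commute_single'.2 ?_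
    rintro ⟨a, c⟩ ⟨b, d⟩
    have e1 : (Matrix.single (a, c) (b, d) 1 : Matrix (B × B) (B × B) ℂ) =
        (Matrix.single a b (1 : ℂ) ⊗ₖ (1 : Matrix B B ℂ)) *
          ((1 : Matrix B B ℂ) ⊗ₖ Matrix.single c d (1 : ℂ)) := by
      rw [← mul_kronecker_mul, Matrix.one_mul, Matrix.mul_one, single_kronecker_single, one_mul]
    change _ * _ = _ * _
    rw [e1, Matrix.mul_assoc, g2, ← Matrix.mul_assoc, g1, Matrix.mul_assoc]
  obtain ⟨c, hc⟩ := g3
  refine ⟨c, ?_⟩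
  rw [← hc]
  ext a b
  simp [Matrix.scalar_apply, Matrix.diagonal_apply, Matrix.one_apply]

end Three

end

end Pool.Agent.H841.MF
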