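import Pool.Agent.H841.MF.Mat

/-!
# The exchange of the two factors
-/

set_option linter.unusedSectionVars false

namespace Pool.Agent.H841.MF

open Finset Matrix Pool.Agent.H841.MS
open scoped Kronecker

noncomputable section

variable {B : Type} [Fintype B] [DecidableEq B]

/-- The exchange. -/
def swM (B : Type) [Fintype B] [DecidableEq B] : Matrix (B × B) (B × B) ℂ := fun x y =>
  if y = x.swap then 1 else 0

theorem swM_mul (M : Matrix (B × B) (B × B) ℂ) (x y : B × B) : (swM B * M) x y = M x.swap y := by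
  rw [Matrix.mul_apply, Finset.sum_eq_single x.swap]
  · unfold swM
    rw [if_pos rfl, one_mul]
  · intro z _ hz
    unfold swM
    rw [if_neg hz, zero_mul]
  · exact fun hz => absurd (Finset.mem_univ _) hz

theorem mul_swM (M : Matrix (B × B) (B × B) ℂ) (x y : B × B) : (M * swM B) x y = M x y.swap := by
  rw [Matrix.mul_apply, Finset.sum_eq_single y.swap]
  · unfold swM
    rw [if_pos (Prod.swap_swap y).symm, mul_one]
  · intro z _ hz
    unfold swM
    rw [if_neg, mul_zero]
    rintro rfl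
    exact hz (Prod.swap_swap z).symm
  · exact fun hz => absurd (Finset.mem_univ _) hz

theorem swM_kron (X Y : Matrix B B ℂ) : swM B * (X ⊗ₖ Y) = (Y ⊗ₖ X) * swM B := by
  ext ⟨a, b⟩ ⟨c, d⟩
  rw [swM_mul, mul_swM]
  change X b c * Y a d = Y a d * X b c
  ring

theorem swM_sq : swM B * swM B = 1 := by
  ext x y
  rw [swM_mul]
  unfold swM
  rw [Prod.swap_swap, Matrix.one_apply]
  exact if_congr ⟨fun h => h.symm, fun h => h.symm⟩ rfl rfl

theorem trace_swM_kron (X Y : Matrix B B ℂ) : (swM B * (X ⊗ₖ Y)).trace = (X * Y).trace := by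
  unfold Matrix.trace
  have e1 : ∀ x : B × B, (swM B * (X ⊗ₖ Y)).diag x = X x.2 x.1 * Y x.1 x.2 := by
    intro x
    rw [Matrix.diag_apply, swM_mul]
    rfl
  simp only [e1, Matrix.diag_apply, Matrix.mul_apply]
  rw [Fintype.sum_prod_type, Finset.sum_comm]

namespace Three

variable {r : Fin 3 → (M2 →ₗ[ℂ] Matrix B B ℂ)} (h : Three r)
include h

theorem ab (i j : Fin 3) (X Y : M2) : h.al i X * h.be j Y = h.be j Y * h.al i X := by
  rw [al_apply, be_apply, ← mul_kronecker_mul, ← mul_kronecker_mul]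
  simp only [Matrix.one_mul, Matrix.mul_one]

theorem aa (i j : Fin 3) (hij : i ≠ j) (X Y : M2) : h.al i X * h.al j Y = h.al j Y * h.al i X := by
  rw [al_apply, al_apply, ← mul_kronecker_mul, ← mul_kronecker_mul, h.comm i j hij]

theorem bb (i j : Fin 3) (hij : i ≠ j) (X Y : M2) : h.be i X * h.be j Y = h.be j Y * h.be i X := by
  rw [be_apply, be_apply, ← mul_kronecker_mul, ← mul_kronecker_mul, h.comm i j hij]

theorem sw_al (i : Fin 3) (X : M2) : h.al i X * swM B = swM B * h.be i X := by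
  rw [al_apply, be_apply, swM_kron]

theorem sw_be (i : Fin 3) (X : M2) : h.be i X * swM B = swM B * h.al i X := by
  rw [al_apply, be_apply, swM_kron]

/-- The exchange acts trivially on the highest weight vector. -/
theorem s_e (i : Fin 3) (M : Matrix B B ℂ) (hM : r i (mu 0 0) * M = M) :
    ss (h.al i) (h.be i) * (M ⊗ₖ M) = M ⊗ₖ M := by
  unfold ss
  have e1 : ∀ a b, h.al i (mu a b) * h.be i (mu b a) * (M ⊗ₖ M) =
      if a = 0 ∧ b = 0 then M ⊗ₖ M else 0 := by
    intro a b
    rw [al_apply, be_apply, ← mul_kronecker_mul, ← mul_kronecker_mul, Matrix.mul_one,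
      Matrix.one_mul]
    have f : ∀ a b, r i (mu a b) * M = if b = 0 then r i (mu a 0) * M else 0 := by
      intro a b
      by_cases hb : b = 0
      · rw [if_pos hb, hb]
      · conv_lhs => rw [← hM]
        rw [if_neg hb, ← Matrix.mul_assoc, ← h.mul, mu_mul, if_neg hb, map_zero, Matrix.zero_mul]
    rw [f a b, f b a]
    by_cases hb : b = 0
    · by_cases ha : a = 0
      · rw [if_pos hb, if_pos ha, if_pos ⟨ha, hb⟩, ha, hb, hM]
      · rw [if_neg ha, kronecker_zero, if_neg fun h => ha h.1]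
    · rw [if_neg hb, zero_kronecker, if_neg fun h => hb h.2]
  simp only [Finset.sum_mul, e1]
  rw [Finset.sum_eq_single 0 (fun a _ ha => by simp [ha]) (by simp),
    Finset.sum_eq_single 0 (fun b _ hb => by simp [hb]) (by simp)]
  simp

/-- The data. -/
theorem trip : Trip h.al h.be (swM B) := by
  refine ⟨h.ab, h.aa, h.bb, fun T => h.scal, ?_⟩
  -- temporary data with the product of the exchanges
  have h0 : Trip h.al h.be (ss (h.al 0) (h.be 0) * ss (h.al 1) (h.be 1) * ss (h.al 2) (h.be 2)) :=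
    ⟨h.ab, h.aa, h.bb, fun T => h.scal, rfl⟩
  obtain ⟨S, hS⟩ : ∃ S, S = ss (h.al 0) (h.be 0) * ss (h.al 1) (h.be 1) * ss (h.al 2) (h.be 2) :=
    ⟨_, rfl⟩
  rw [← hS] at h0 ⊢
  have hα : ∀ (i : Fin 3) (X : M2), h.al i X * S = S * h.be i X := by
    intro i X
    obtain ⟨j, k, hij, hik, hjk⟩ : ∃ j k : Fin 3, i ≠ j ∧ i ≠ k ∧ j ≠ k := by
      fin_cases i
      exacts [⟨1, 2, by decide, by decide, by decide⟩, ⟨0, 2, by decide, by decide, by decide⟩,
        ⟨0, 1, by decide, by decide, by decide⟩]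
    rw [h0.P_eq' hij hik hjk]
    change h.al i X * (ss (h.al i) (h.be i) * ss (h.al j) (h.be j) * ss (h.al k) (h.be k)) =
      ss (h.al i) (h.be i) * ss (h.al j) (h.be j) * ss (h.al k) (h.be k) * h.be i X
    rw [mul_assoc, mul_assoc, ← mul_assoc (h.al i X), ss_left (h.ab i i), mul_assoc,
      ← mul_assoc (h.be i X), h0.b_s hij, mul_assoc, h0.b_s hik, mul_assoc]
  have hβ : ∀ (i : Fin 3) (X : M2), h.be i X * S = S * h.al i X := by
    intro i X
    have e1 : h.al i X = S * h.be i X * S := by rw [← hα, mul_assoc, h0.PP, mul_one]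
    rw [e1, ← mul_assoc, ← mul_assoc, h0.PP, one_mul]
  obtain ⟨c, hc⟩ := h.scal (T := swM B * S)
    (fun i X => by rw [← mul_assoc, h.sw_al, mul_assoc, hβ, mul_assoc])
    (fun i X => by rw [← mul_assoc, h.sw_be, mul_assoc, hα, mul_assoc])
  have h1 : swM B = c • S := by
    have e1 : swM B * S * S = c • S := by rw [hc, smul_mul_assoc, one_mul]
    rwa [mul_assoc, h0.PP, mul_one] at e1
  have h2 : S * (h.e ⊗ₖ h.e) = h.e ⊗ₖ h.e := by
    have hq : ∀ i, r i (mu 0 0) * h.e = h.e := by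
      intro i
      have c01 := h.comm 0 1 (by decide) (mu 0 0) (mu 0 0)
      have c02 := h.comm 0 2 (by decide) (mu 0 0) (mu 0 0)
      have c12 := h.comm 1 2 (by decide) (mu 0 0) (mu 0 0)
      unfold e
      fin_cases i
      · change r 0 (mu 0 0) * (r 0 (mu 0 0) * (r 1 (mu 0 0) * r 2 (mu 0 0))) = _
        rw [← Matrix.mul_assoc, h.q_q]
      · change r 1 (mu 0 0) * (r 0 (mu 0 0) * (r 1 (mu 0 0) * r 2 (mu 0 0))) = _
        rw [← Matrix.mul_assoc, ← c01, Matrix.mul_assoc, ← Matrix.mul_assoc (r 1 (mu 0 0)), h.q_q]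
      · change r 2 (mu 0 0) * (r 0 (mu 0 0) * (r 1 (mu 0 0) * r 2 (mu 0 0))) = _
        rw [← Matrix.mul_assoc, ← c02, Matrix.mul_assoc, ← Matrix.mul_assoc (r 2 (mu 0 0)), ← c12,
          Matrix.mul_assoc, h.q_q, c12]
    rw [hS, mul_assoc, mul_assoc, h.s_e 2 _ (hq 2), h.s_e 1 _ (hq 1), h.s_e 0 _ (hq 0)]
  have h3 : c = 1 := by
    have e1 : (swM B * (h.e ⊗ₖ h.e)).trace = (c • S * (h.e ⊗ₖ h.e)).trace := by rw [h1]
    rw [trace_swM_kron, h.ee, h.trace_e, Matrix.smul_mul, h2, Matrix.trace_smul, trace_kronecker,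
      h.trace_e, mul_one, smul_eq_mul, mul_one] at e1
    exact e1.symm
  rw [h1, h3, one_smul]

end Three

end

end Pool.Agent.H841.MF
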