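import Pool.Agent.H841.MF.Gal
import Pool.Agent.H841.MS.Anti

/-!
# Tensors of degree four and operators
-/

set_option linter.unusedSectionVars false

namespace Pool.Agent.H841.MF

open Finset Matrix Pool.Agent.H841.MS Pool.Agent.W548.Odd Pool.Agent.W437.HC
open scoped Kronecker

noncomputable section

variable {B : Type} [Fintype B] [DecidableEq B]

/-- The matrix of a tensor. -/
def mat (u : Tn (Fin 2 ⊕ Fin 2) B) : Matrix (B × B) (B × B) ℂ := fun x y =>
  u (Sum.elim ![x.1, x.2] ![y.1, y.2])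

/-- The tensor of a matrix. -/
def untn (M : Matrix (B × B) (B × B) ℂ) : Tn (Fin 2 ⊕ Fin 2) B := fun z =>
  M (z (Sum.inl 0), z (Sum.inl 1)) (z (Sum.inr 0), z (Sum.inr 1))

theorem elim_eta (z : Fin 2 ⊕ Fin 2 → B) :
    Sum.elim ![z (Sum.inl 0), z (Sum.inl 1)] ![z (Sum.inr 0), z (Sum.inr 1)] = z := by
  funext m
  rcases m with m | m <;> fin_cases m <;> rfl

theorem mat_untn (M : Matrix (B × B) (B × B) ℂ) : mat (untn M) = M := rfl

theorem untn_mat (u : Tn (Fin 2 ⊕ Fin 2) B) : untn (mat u) = u := by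
  funext z
  change u (Sum.elim ![z (Sum.inl 0), z (Sum.inl 1)] ![z (Sum.inr 0), z (Sum.inr 1)]) = u z
  rw [elim_eta]

variable {Om : Matrix B B ℂ}

/-- The tensor of an operator. -/
def ten (Om : Matrix B B ℂ) (M : Matrix (B × B) (B × B) ℂ) : Tn (Fin 2 ⊕ Fin 2) B :=
  untn ((Om ⊗ₖ Om) * M)

/-- The operator of a tensor. -/
def op (Om : Matrix B B ℂ) (u : Tn (Fin 2 ⊕ Fin 2) B) : Matrix (B × B) (B × B) ℂ :=
  (Om ⊗ₖ Om) * mat u

section Om

variable (hOm : Om * Om = -1) (hOmT : Omᵀ = -Om)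

include hOm

theorem OO : (Om ⊗ₖ Om) * (Om ⊗ₖ Om) = 1 := by
  rw [← mul_kronecker_mul, hOm]
  ext ⟨a, b⟩ ⟨c, d⟩
  change (-1 : Matrix B B ℂ) a c * (-1 : Matrix B B ℂ) b d = _
  rw [Matrix.neg_apply, Matrix.neg_apply, neg_mul_neg, Matrix.one_apply, Matrix.one_apply,
    Matrix.one_apply]
  by_cases h1 : a = c <;> by_cases h2 : b = d <;> simp [h1, h2]

theorem ten_op (u : Tn (Fin 2 ⊕ Fin 2) B) : ten Om (op Om u) = u := by
  unfold ten op
  rw [← Matrix.mul_assoc, OO hOm, Matrix.one_mul, untn_mat]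

theorem op_ten (M : Matrix (B × B) (B × B) ℂ) : op Om (ten Om M) = M := by
  unfold ten op
  rw [mat_untn, ← Matrix.mul_assoc, OO hOm, Matrix.one_mul]

include hOmT

/-- Composition. -/
theorem ten_mul (M M' : Matrix (B × B) (B × B) ℂ) : ten Om (M * M') =
    opt Om (show (Sum.inr 0 : Fin 2 ⊕ Fin 2) ≠ Sum.inr 1 by decide) (ten Om M') (ten Om M) := by
  funext z
  rw [opt_apply]
  have e1 : ∀ b b', Uof (Sum.inr 0 : Fin 2 ⊕ Fin 2) (Sum.inr 1) (ten Om M) z b b' =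
      ((Om ⊗ₖ Om) * M) (z (Sum.inl 0), z (Sum.inl 1)) (b, b') := by
    intro b b'
    rfl
  have e2 : ∀ b b', ∑ a, ∑ a', Om a b * (Om a' b' * ten Om M' (Sum.elim ![a, a']
      ![z (Sum.inr 0), z (Sum.inr 1)])) = M' (b, b') (z (Sum.inr 0), z (Sum.inr 1)) := by
    intro b b'
    have f1 : M' = (Omᵀ ⊗ₖ Omᵀ) * ((Om ⊗ₖ Om) * M') := by
      have f2 : Omᵀ * Om = 1 := by rw [hOmT, Matrix.neg_mul, hOm, neg_neg]
      rw [← Matrix.mul_assoc, ← mul_kronecker_mul, f2, one_kronecker_one, Matrix.one_mul]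
    conv_rhs => rw [f1, Matrix.mul_apply, Fintype.sum_prod_type]
    refine Finset.sum_congr rfl fun a _ => Finset.sum_congr rfl fun a' _ => ?_
    change _ = Om a b * Om a' b' * _
    rw [mul_assoc]
    rfl
  simp only [e1, e2]
  change ((Om ⊗ₖ Om) * (M * M')) _ _ = _
  rw [← Matrix.mul_assoc, Matrix.mul_apply, Fintype.sum_prod_type]

end Om

/-- The tensors as a linear map. -/
def tenL (Om : Matrix B B ℂ) : Matrix (B × B) (B × B) ℂ →ₗ[ℂ] Tn (Fin 2 ⊕ Fin 2) B where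
  toFun := ten Om
  map_add' M M' := by
    funext z
    change ((Om ⊗ₖ Om) * (M + M')) _ _ = ((Om ⊗ₖ Om) * M) _ _ + ((Om ⊗ₖ Om) * M') _ _
    rw [Matrix.mul_add, Matrix.add_apply]
  map_smul' c M := by
    funext z
    change ((Om ⊗ₖ Om) * (c • M)) _ _ = c * ((Om ⊗ₖ Om) * M) _ _
    rw [Matrix.mul_smul, Matrix.smul_apply, smul_eq_mul]

theorem tenL_apply (M : Matrix (B × B) (B × B) ℂ) : tenL Om M = ten Om M := rfl

/-- The operators whose tensors belong to the family. -/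
def NN (F : Fam Om) : Submodule ℂ (Matrix (B × B) (B × B) ℂ) :=
  (F.N (Fin 2 ⊕ Fin 2)).comap (tenL Om)

theorem mem_NN {F : Fam Om} {M : Matrix (B × B) (B × B) ℂ} :
    M ∈ NN F ↔ ten Om M ∈ F.N (Fin 2 ⊕ Fin 2) := Iff.rfl

/-- The invariant vector. -/
def KM (Om : Matrix B B ℂ) : Matrix (B × B) (B × B) ℂ := fun x y => Om x.1 x.2 * Om y.1 y.2

section fam

variable (hOm : Om * Om = -1) (hOmT : Omᵀ = -Om) (F : Fam Om)

include hOm hOmT

theorem NN_mul {M M' : Matrix (B × B) (B × B) ℂ} (hM : M ∈ NN F) (hM' : M' ∈ NN F) :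
    M * M' ∈ NN F := by
  rw [mem_NN, ten_mul hOm hOmT]
  exact opt_mem F _ hM' hM

theorem ten_one : ten Om 1 = tP Om := by
  funext z
  change ((Om ⊗ₖ Om) * (1 : Matrix (B × B) (B × B) ℂ)) (_, _) (_, _) = _
  rw [Matrix.mul_one]
  rfl

theorem ten_sw : ten Om (swM B) = rnm (Equiv.swap (Sum.inr 0) (Sum.inr 1)) (tP Om) := by
  funext z
  change ((Om ⊗ₖ Om) * swM B) _ _ = tP Om (z ∘ _)
  rw [mul_swM]
  unfold tP
  simp only [Function.comp_apply, Equiv.swap_apply_left, Equiv.swap_apply_right]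
  rw [Equiv.swap_apply_of_ne_of_ne (by simp) (by simp),
    Equiv.swap_apply_of_ne_of_ne (by simp) (by simp)]
  rfl

theorem ten_K : ten Om (KM Om) = prd (w2 Om) (w2 Om) := by
  funext z
  change ((Om ⊗ₖ Om) * KM Om) _ _ = Om (z (Sum.inl 0)) (z (Sum.inl 1)) *
    Om (z (Sum.inr 0)) (z (Sum.inr 1))
  rw [Matrix.mul_apply, Fintype.sum_prod_type]
  have e1 : Om * Om * Omᵀ = Om := by
    rw [hOm, hOmT, Matrix.neg_mul, Matrix.one_mul, neg_neg]
  have e2 : Om (z (Sum.inl 0)) (z (Sum.inl 1)) = (Om * Om * Omᵀ) (z (Sum.inl 0)) (z (Sum.inl 1)) := by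
    rw [e1]
  rw [e2, Matrix.mul_apply, Finset.sum_mul, Finset.sum_comm]
  refine Finset.sum_congr rfl fun d _ => ?_
  rw [Matrix.mul_apply, Finset.sum_mul, Finset.sum_mul]
  refine Finset.sum_congr rfl fun c _ => ?_
  change Om _ c * Om _ d * (Om c d * _) = Om _ c * Om c d * Om _ d * _
  ring

theorem NN_one (hθ : w2 Om ∈ F.N (Fin 2)) : (1 : Matrix (B × B) (B × B) ℂ) ∈ NN F := by
  rw [mem_NN, ten_one hOm hOmT]
  exact tP_mem F hθ

theorem NN_sw (hθ : w2 Om ∈ F.N (Fin 2)) : swM B ∈ NN F := by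
  rw [mem_NN, ten_sw hOm hOmT]
  exact F.rnm _ _ (tP_mem F hθ)

theorem NN_K (hθ : w2 Om ∈ F.N (Fin 2)) : KM Om ∈ NN F := by
  rw [mem_NN, ten_K hOm hOmT]
  exact F.prd _ _ hθ hθ

end fam

/-- The action on the matrices. -/
theorem mat_act (X : Matrix B B ℂ) (u : Tn (Fin 2 ⊕ Fin 2) B) : mat (act X u) =
    (Xᵀ ⊗ₖ (1 : Matrix B B ℂ) + (1 : Matrix B B ℂ) ⊗ₖ Xᵀ) * mat u +
      mat u * (X ⊗ₖ (1 : Matrix B B ℂ) + (1 : Matrix B B ℂ) ⊗ₖ X) := by
  ext ⟨a, b⟩ ⟨c, d⟩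
  have s1 : ∀ (Y : Matrix B B ℂ) (M : Matrix (B × B) (B × B) ℂ),
      ((Y ⊗ₖ (1 : Matrix B B ℂ)) * M) (a, b) (c, d) = ∑ j, Y a j * M (j, b) (c, d) := by
    intro Y M
    rw [Matrix.mul_apply, Fintype.sum_prod_type]
    refine Finset.sum_congr rfl fun j _ => ?_
    rw [Finset.sum_eq_single b]
    · change Y a j * (1 : Matrix B B ℂ) b b * _ = _
      rw [Matrix.one_apply_eq, mul_one]
    · intro l _ hl
      change Y a j * (1 : Matrix B B ℂ) b l * _ = _
      rw [Matrix.one_apply_ne hl.symm, mul_zero, zero_mul]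
    · exact fun hb => absurd (Finset.mem_univ _) hb
  have s2 : ∀ (Y : Matrix B B ℂ) (M : Matrix (B × B) (B × B) ℂ),
      (((1 : Matrix B B ℂ) ⊗ₖ Y) * M) (a, b) (c, d) = ∑ j, Y b j * M (a, j) (c, d) := by
    intro Y M
    rw [Matrix.mul_apply, Fintype.sum_prod_type, Finset.sum_eq_single a]
    · refine Finset.sum_congr rfl fun j _ => ?_
      change (1 : Matrix B B ℂ) a a * Y b j * _ = _
      rw [Matrix.one_apply_eq, one_mul]
    · intro l _ hl
      refine Finset.sum_eq_zero fun j _ => ?_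
      change (1 : Matrix B B ℂ) a l * Y b j * _ = _
      rw [Matrix.one_apply_ne hl.symm, zero_mul, zero_mul]
    · exact fun hb => absurd (Finset.mem_univ _) hb
  have s3 : ∀ (Y : Matrix B B ℂ) (M : Matrix (B × B) (B × B) ℂ),
      (M * (Y ⊗ₖ (1 : Matrix B B ℂ))) (a, b) (c, d) = ∑ j, Y j c * M (a, b) (j, d) := by
    intro Y M
    rw [Matrix.mul_apply, Fintype.sum_prod_type]
    refine Finset.sum_congr rfl fun j _ => ?_
    rw [Finset.sum_eq_single d]
    · change _ * (Y j c * (1 : Matrix B B ℂ) d d) = _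
      rw [Matrix.one_apply_eq, mul_one, mul_comm]
    · intro l _ hl
      change _ * (Y j c * (1 : Matrix B B ℂ) l d) = _
      rw [Matrix.one_apply_ne hl, mul_zero, mul_zero]
    · exact fun hb => absurd (Finset.mem_univ _) hb
  have s4 : ∀ (Y : Matrix B B ℂ) (M : Matrix (B × B) (B × B) ℂ),
      (M * ((1 : Matrix B B ℂ) ⊗ₖ Y)) (a, b) (c, d) = ∑ j, Y j d * M (a, b) (c, j) := by
    intro Y M
    rw [Matrix.mul_apply, Fintype.sum_prod_type, Finset.sum_eq_single c]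
    · refine Finset.sum_congr rfl fun j _ => ?_
      change _ * ((1 : Matrix B B ℂ) c c * Y j d) = _
      rw [Matrix.one_apply_eq, one_mul, mul_comm]
    · intro l _ hl
      refine Finset.sum_eq_zero fun j _ => ?_
      change _ * ((1 : Matrix B B ℂ) l c * Y j d) = _
      rw [Matrix.one_apply_ne hl, zero_mul, mul_zero]
    · exact fun hb => absurd (Finset.mem_univ _) hb
  rw [Matrix.add_apply, Matrix.add_mul, Matrix.mul_add, Matrix.add_apply, Matrix.add_apply, s1, s2,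
    s3, s4]
  change act X u (Sum.elim ![a, b] ![c, d]) = _
  unfold act
  rw [Fintype.sum_sum_type, Fin.sum_univ_two, Fin.sum_univ_two]
  have t1 : ∀ j, Function.update (Sum.elim ![a, b] ![c, d] : Fin 2 ⊕ Fin 2 → B) (Sum.inl 0) j =
      Sum.elim ![j, b] ![c, d] := by
    intro j
    funext m
    rcases m with m | m <;> fin_cases m <;> rfl
  have t2 : ∀ j, Function.update (Sum.elim ![a, b] ![c, d] : Fin 2 ⊕ Fin 2 → B) (Sum.inl 1) j =
      Sum.elim ![a, j] ![c, d] := by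
    intro j
    funext m
    rcases m with m | m <;> fin_cases m <;> rfl
  have t3 : ∀ j, Function.update (Sum.elim ![a, b] ![c, d] : Fin 2 ⊕ Fin 2 → B) (Sum.inr 0) j =
      Sum.elim ![a, b] ![j, d] := by
    intro j
    funext m
    rcases m with m | m <;> fin_cases m <;> rfl
  have t4 : ∀ j, Function.update (Sum.elim ![a, b] ![c, d] : Fin 2 ⊕ Fin 2 → B) (Sum.inr 1) j =
      Sum.elim ![a, b] ![c, j] := by
    intro j
    funext m
    rcases m with m | m <;> fin_cases m <;> rfl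
  simp only [t1, t2, t3, t4]
  rfl

end

end Pool.Agent.H841.MF
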